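import Pool.Graph.R_pool_sql_team_seeded_3dad9d7b.NH13.UV.YH
import Pool.Graph.R_pool_sql_team_seeded_3dad9d7b.NH13.UV.Gr1
import Pool.Graph.R_pool_sql_team_seeded_3dad9d7b.NH13.UV.YYd
import Pool.Graph.R_pool_sql_team_seeded_3dad9d7b.NH13.UV.LDg
import Pool.Graph.R_pool_sql_team_seeded_3dad9d7b.NH13.UV.HDq
import Pool.Graph.R_seed8.H370R2.DirGood
import Pool.Agent.H862.VP.PFC

/-!
# The function `ξ(1/2 + z)`

Growth, symmetry, zeros and logarithmic derivative, for the proof of von Koch's theorem.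
-/

set_option autoImplicit false

open Complex MeasureTheory Filter Topology Set
open scoped ComplexConjugate

namespace Pool.Agent.H862.VK

open Pool.Agent.NH13.UV

/-- `s (s - 1) Λ(s)` at `s = 1/2 + z` -/
noncomputable def Yz (z : ℂ) : ℂ :=
  (1 / 2 + z) * (z - 1 / 2) * completedRiemannZeta₀ (1 / 2 + z) + 1

lemma Yz_diff : Differentiable ℂ Yz := by
  unfold Yz
  have h1 : Differentiable ℂ (fun z : ℂ => completedRiemannZeta₀ (1 / 2 + z)) :=
    differentiable_completedZeta₀.comp ((differentiable_const _).add differentiable_id)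
  have h2 : Differentiable ℂ (fun z : ℂ => (1 / 2 + z) * (z - 1 / 2)) := by fun_prop
  exact (h2.mul h1).add_const 1

lemma half_re (z : ℂ) : (1 / 2 + z).re = 1 / 2 + z.re := by
  rw [add_re]
  norm_num

lemma sub_half_ne {z : ℂ} (h : z ≠ 1 / 2) : (z - 1 / 2 : ℂ) ≠ 0 := sub_ne_zero.2 h

lemma s_ne_one {z : ℂ} (h : z ≠ 1 / 2) : (1 / 2 + z : ℂ) ≠ 1 := by
  intro h1
  apply h
  linear_combination h1

/-- to the right of `Re z = -1/2` -/
lemma Yz_eq {z : ℂ} (hz : -(1 / 2) < z.re) (h1 : z ≠ 1 / 2) :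
    Yz z = (1 / 2 + z) * Gammaℝ (1 / 2 + z) * ((z - 1 / 2) * riemannZeta (1 / 2 + z)) := by
  have hre : 0 < (1 / 2 + z).re := by
    rw [half_re]
    linarith
  have hs0 : (1 / 2 + z : ℂ) ≠ 0 := by
    intro h
    rw [h, zero_re] at hre
    exact lt_irrefl _ hre
  have hG : Gammaℝ (1 / 2 + z) ≠ 0 := Gammaℝ_ne_zero_of_re_pos hre
  have h2 : (1 - (1 / 2 + z) : ℂ) ≠ 0 := by
    intro h
    apply s_ne_one h1
    linear_combination -h
  rw [riemannZeta_def_of_ne_zero hs0, completedRiemannZeta_eq]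
  unfold Yz
  have e3 : (z - 1 / 2 : ℂ) = (1 / 2 + z) - 1 := by ring
  rw [e3]
  generalize completedRiemannZeta₀ (1 / 2 + z) = L
  generalize Gammaℝ (1 / 2 + z) = A at hG ⊢
  generalize (1 / 2 + z : ℂ) = u at hs0 h2 ⊢
  field_simp
  ring

/-- the values of zeta at conjugate points -/
lemma zeta_conj {s : ℂ} (hs : s ≠ 1) : riemannZeta (conj s) = conj (riemannZeta s) := by
  have h := H370.DL.LFunction_conj (1 : DirichletCharacter ℂ 1) s hs
  rw [inv_one, DirichletCharacter.LFunction_modOne_eq] at h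
  exact h

lemma GammaR_conj (s : ℂ) : Gammaℝ (conj s) = conj (Gammaℝ s) := by
  rw [Gammaℝ_def, Gammaℝ_def, map_mul, ← Gamma_conj]
  have e1 : conj (s / 2) = conj s / 2 := by
    rw [map_div₀]
    congr 1
    exact Complex.conj_ofNat 2
  rw [e1]
  congr 1
  have h4 := cpow_conj (Real.pi : ℂ) (-s / 2) (by
    rw [arg_ofReal_of_nonneg Real.pi_pos.le]
    exact Real.pi_pos.ne)
  rw [conj_ofReal] at h4
  rw [← h4, map_div₀, map_neg]
  congr 2
  exact (Complex.conj_ofNat 2).symm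

lemma Yz_conj (z : ℂ) : Yz (conj z) = conj (Yz z) := by
  have hA : AnalyticOnNhd ℂ (fun s => conj (Yz (conj s))) univ := by
    intro z _
    have hd : Differentiable ℂ (fun s => conj (Yz (conj s))) := by
      intro w
      have h3 := (Yz_diff (conj w)).hasDerivAt.conj_conj
      rw [Complex.conj_conj] at h3
      exact h3.differentiableAt
    exact hd.analyticAt z
  have hB : AnalyticOnNhd ℂ Yz univ := fun z _ => Yz_diff.analyticAt z
  have hev : (fun s => conj (Yz (conj s))) =ᶠ[𝓝 (2 : ℂ)] Yz := by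
    have hmem : {z : ℂ | 1 < z.re} ∈ 𝓝 (2 : ℂ) :=
      (isOpen_lt continuous_const continuous_re).mem_nhds (by simp)
    filter_upwards [hmem] with z hz
    have hz' : 1 < z.re := hz
    have hz1 : z ≠ 1 / 2 := by
      intro h
      rw [h] at hz'
      norm_num at hz'
    have hz2 : conj z ≠ 1 / 2 := by
      intro h
      have := congrArg Complex.re h
      rw [conj_re] at this
      norm_num at this
      linarith
    rw [Yz_eq (by rw [conj_re]; linarith) hz2, Yz_eq (by linarith) hz1]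
    have e1 : (1 / 2 + conj z : ℂ) = conj (1 / 2 + z) := by
      rw [map_add, map_div₀, map_one, show conj (2 : ℂ) = 2 from Complex.conj_ofNat 2]
    have e2 : (conj z - 1 / 2 : ℂ) = conj (z - 1 / 2) := by
      rw [map_sub, map_div₀, map_one, show conj (2 : ℂ) = 2 from Complex.conj_ofNat 2]
    rw [e1, e2, GammaR_conj, zeta_conj (s_ne_one hz1)]
    simp only [map_mul, Complex.conj_conj]
  have := hA.eq_of_eventuallyEq hB hev
  have h3 := congrFun this z
  rw [← h3, Complex.conj_conj]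

lemma Yz_neg (z : ℂ) : Yz (-z) = Yz z := by
  unfold Yz
  have h := completedRiemannZeta₀_one_sub (1 / 2 + z)
  have e : (1 : ℂ) - (1 / 2 + z) = 1 / 2 + -z := by ring
  rw [e] at h
  rw [h]
  ring

lemma Yz_sym (z : ℂ) : Yz (-(conj z)) = conj (Yz z) := by
  rw [Yz_neg, Yz_conj]

/-- `(s - 1) ζ(s)` to the right of the critical line -/
lemma zeta_le {z : ℂ} (hz : 0 ≤ z.re) (h1 : z ≠ 1 / 2) :
    ‖(z - 1 / 2) * riemannZeta (1 / 2 + z)‖ ≤ 3 * (1 + ‖z‖) ^ 2 := by
  have hre : (1 / 2 + z).re = 1 / 2 + z.re := half_re z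
  have hs : 0 < (1 / 2 + z).re := by rw [hre]; linarith
  have hne := s_ne_one h1
  have hA : ∀ u : ℝ, ‖((Int.fract u : ℝ) : ℂ)‖ ≤ 1 := by
    intro u
    rw [Complex.norm_real, Real.norm_eq_abs, Int.abs_fract]
    exact (Int.fract_lt_one u).le
  have hJ := H370.DL.J_bound hA hs
  have hJ2 : (1 : ℝ) / (1 / 2 + z).re ≤ 2 := by
    rw [div_le_iff₀ hs, hre]
    linarith
  have hJ3 := hJ.trans hJ2
  rw [ZU.J_a1.zf_one (1 / 2 + z) hs hne]
  obtain ⟨J, hJdef⟩ : ∃ J : ℂ, J = ∫ u in Ioi (1 : ℝ), ((Int.fract u : ℝ) : ℂ) *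
    (u : ℂ) ^ (-(1 / 2 + z) - 1) := ⟨_, rfl⟩
  rw [← hJdef] at hJ3 ⊢
  have hne2 : (1 / 2 + z - 1 : ℂ) ≠ 0 := sub_ne_zero.2 hne
  have e : (z - 1 / 2) * (1 + 1 / (1 / 2 + z - 1) - (1 / 2 + z) * J) =
      (1 / 2 + z) - (1 / 2 + z) * (z - 1 / 2) * J := by
    have e3 : (z - 1 / 2 : ℂ) = 1 / 2 + z - 1 := by ring
    rw [e3]
    generalize (1 / 2 + z : ℂ) = u at hne2 ⊢
    field_simp
    ring
  rw [e]
  have n1 : ‖(1 / 2 + z : ℂ)‖ ≤ 1 + ‖z‖ := by
    refine (norm_add_le _ _).trans ?_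
    have : ‖(1 / 2 : ℂ)‖ = 1 / 2 := by norm_num
    rw [this]
    linarith
  have n2 : ‖(z - 1 / 2 : ℂ)‖ ≤ 1 + ‖z‖ := by
    refine (norm_sub_le _ _).trans ?_
    have : ‖(1 / 2 : ℂ)‖ = 1 / 2 := by norm_num
    rw [this]
    linarith
  have hz0 := norm_nonneg z
  calc ‖(1 / 2 + z) - (1 / 2 + z) * (z - 1 / 2) * J‖
      ≤ ‖(1 / 2 + z : ℂ)‖ + ‖(1 / 2 + z : ℂ)‖ * ‖(z - 1 / 2 : ℂ)‖ * ‖J‖ := by
        refine (norm_sub_le _ _).trans ?_
        rw [norm_mul, norm_mul]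
    _ ≤ (1 + ‖z‖) + (1 + ‖z‖) * (1 + ‖z‖) * 2 := by gcongr
    _ ≤ 3 * (1 + ‖z‖) ^ 2 := by nlinarith

lemma grow_right {z : ℂ} (hz : 0 ≤ z.re) :
    ‖Yz z‖ ≤ Real.exp (40 * (1 + ‖z‖) ^ (3 / 2 : ℝ)) := by
  have hn0 := norm_nonneg z
  have hre : z.re ≤ ‖z‖ := (le_abs_self _).trans (Complex.abs_re_le_norm z)
  have h1z : 1 ≤ 1 + ‖z‖ := by linarith
  obtain ⟨Y, hY⟩ : ∃ Y : ℝ, Y = (1 + ‖z‖) ^ (3 / 2 : ℝ) := ⟨_, rfl⟩
  have hY1 : 1 + ‖z‖ ≤ Y := by
    rw [hY]
    conv_lhs => rw [← Real.rpow_one (1 + ‖z‖)]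
    exact Real.rpow_le_rpow_of_exponent_le h1z (by norm_num)
  rw [← hY]
  rcases eq_or_ne z (1 / 2) with h1 | h1
  · have : Yz z = 1 := by
      unfold Yz
      rw [h1]
      ring
    rw [this, norm_one]
    exact Real.one_le_exp (by linarith)
  · rw [Yz_eq (by linarith) h1, norm_mul, norm_mul]
    have a1 : ‖(1 / 2 + z : ℂ)‖ ≤ Real.exp Y := by
      have n1 : ‖(1 / 2 + z : ℂ)‖ ≤ 1 + ‖z‖ := by
        refine (norm_add_le _ _).trans ?_
        have : ‖(1 / 2 : ℂ)‖ = 1 / 2 := by norm_num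
        rw [this]
        linarith
      have := Real.add_one_le_exp Y
      linarith
    have a2 : ‖Gammaℝ (1 / 2 + z)‖ ≤ Real.exp (20 * Y) := by
      refine (Pool.Agent.NH13.UV.yd.norm_gammaR_le (by rw [half_re]; linarith)).trans ?_
      rw [half_re]
      have h2 : ((1 / 2 + z.re) / 2 + 3 : ℝ) ^ (3 / 2 : ℝ) ≤ (4 * (1 + ‖z‖)) ^ (3 / 2 : ℝ) :=
        Real.rpow_le_rpow (by linarith) (by linarith) (by norm_num)
      have h3 : (4 : ℝ) ^ (3 / 2 : ℝ) = 8 := by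
        rw [show (4 : ℝ) = 2 ^ (2 : ℝ) by norm_num, ← Real.rpow_mul (by norm_num)]
        norm_num
      rw [Real.mul_rpow (by norm_num) (by linarith), h3, ← hY] at h2
      have h4 : (4 : ℝ) ≤ Real.exp (4 * Y) := by
        have := Real.add_one_le_exp (4 * Y)
        linarith
      calc 4 * Real.exp (2 * ((1 / 2 + z.re) / 2 + 3) ^ (3 / 2 : ℝ))
          ≤ Real.exp (4 * Y) * Real.exp (2 * (8 * Y)) :=
            mul_le_mul h4 (Real.exp_le_exp.2 (by linarith)) (Real.exp_pos _).le (Real.exp_pos _).le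
        _ = Real.exp (20 * Y) := by
            rw [← Real.exp_add]
            congr 1
            ring
    have a3 : ‖(z - 1 / 2) * riemannZeta (1 / 2 + z)‖ ≤ Real.exp (10 * Y) := by
      refine (zeta_le hz h1).trans ?_
      have h5 : 3 * (1 + ‖z‖) ^ 2 ≤ 3 * Y ^ 2 := by
        have : (1 + ‖z‖) ^ 2 ≤ Y ^ 2 := by gcongr
        linarith
      have h6 : Y ≤ Real.exp Y := by
        have := Real.add_one_le_exp Y
        linarith
      have h7 : Y ^ 2 ≤ Real.exp (2 * Y) := by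
        rw [show 2 * Y = Y + Y by ring, Real.exp_add]
        nlinarith
      have h8 : (3 : ℝ) ≤ Real.exp (8 * Y) := by
        have := Real.add_one_le_exp (8 * Y)
        linarith
      calc 3 * (1 + ‖z‖) ^ 2 ≤ 3 * Y ^ 2 := h5
        _ ≤ Real.exp (8 * Y) * Real.exp (2 * Y) :=
          mul_le_mul h8 h7 (by positivity) (Real.exp_pos _).le
        _ = Real.exp (10 * Y) := by
          rw [← Real.exp_add]
          congr 1
          ring
    calc ‖(1 / 2 + z : ℂ)‖ * ‖Gammaℝ (1 / 2 + z)‖ * ‖(z - 1 / 2) * riemannZeta (1 / 2 + z)‖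
        ≤ Real.exp Y * Real.exp (20 * Y) * Real.exp (10 * Y) := by gcongr
      _ = Real.exp (31 * Y) := by
        rw [← Real.exp_add, ← Real.exp_add]
        congr 1
        ring
      _ ≤ Real.exp (40 * Y) := Real.exp_le_exp.2 (by linarith)

lemma Yz_gr : Gr Yz := by
  refine ⟨40, by norm_num, fun z => ?_⟩
  rcases le_or_gt 0 z.re with hz | hz
  · exact grow_right hz
  · have h2 := grow_right (z := -z) (by
      rw [neg_re]
      linarith)
    rwa [Yz_neg, norm_neg] at h2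

lemma Yz_ne {z : ℂ} (hz : 1 / 2 ≤ z.re) : Yz z ≠ 0 := by
  rcases eq_or_ne z (1 / 2) with h1 | h1
  · have : Yz z = 1 := by
      unfold Yz
      rw [h1]
      ring
    rw [this]
    exact one_ne_zero
  · rw [Yz_eq (by linarith) h1]
    have hs : 1 ≤ (1 / 2 + z).re := by
      rw [half_re]
      linarith
    have hs0 : (1 / 2 + z : ℂ) ≠ 0 := by
      intro h
      rw [h, zero_re] at hs
      linarith
    exact mul_ne_zero (mul_ne_zero hs0 (Gammaℝ_ne_zero_of_re_pos (by linarith)))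
      (mul_ne_zero (sub_half_ne h1) (riemannZeta_ne_zero_of_one_le_re hs))

/-- the Riemann hypothesis -/
lemma Yz_zero (hRH : RiemannHypothesis) {z : ℂ} (h : Yz z = 0) : z.re = 0 := by
  have key : ∀ w : ℂ, 0 < w.re → Yz w ≠ 0 := by
    intro w hw h0
    rcases eq_or_ne w (1 / 2) with h1 | h1
    · exact Yz_ne (by rw [h1]; norm_num) h0
    · rw [Yz_eq (by linarith) h1] at h0
      have hs : 0 < (1 / 2 + w).re := by
        rw [half_re]
        linarith
      have hs0 : (1 / 2 + w : ℂ) ≠ 0 := by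
        intro h
        rw [h, zero_re] at hs
        exact lt_irrefl _ hs
      have h2 := (mul_eq_zero.1 h0).resolve_left (mul_ne_zero hs0 (Gammaℝ_ne_zero_of_re_pos hs))
      have h3 := (mul_eq_zero.1 h2).resolve_left (sub_half_ne h1)
      have h4 := hRH (1 / 2 + w) h3 (by
        rintro ⟨n, hn⟩
        rw [hn] at hs
        simp at hs
        have : (0 : ℝ) ≤ n := Nat.cast_nonneg n
        linarith) (s_ne_one h1)
      rw [half_re] at h4
      linarith
  rcases lt_trichotomy z.re 0 with h1 | h1 | h1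
  · exact absurd (by rw [Yz_neg, h]) (key (-z) (by rw [neg_re]; linarith))
  · exact h1
  · exact absurd h (key z h1)

/-- the elementary part -/
noncomputable def Gz (z : ℂ) : ℂ := 1 / (1 / 2 + z) +
  (-(Real.log Real.pi : ℂ) / 2 + 1 / 2 * logDeriv Gamma ((1 / 2 + z) / 2))

lemma logDeriv_Yz {z : ℂ} (hz : 1 / 2 < z.re) :
    logDeriv Yz z = Gz z + 1 / (z - 1 / 2) + logDeriv riemannZeta (1 / 2 + z) := by
  have h1 : z ≠ 1 / 2 := by
    intro h
    rw [h] at hz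
    norm_num at hz
  have hre : 0 < (1 / 2 + z).re := by
    rw [half_re]
    linarith
  have hs0 : (1 / 2 + z : ℂ) ≠ 0 := by
    intro h
    rw [h, zero_re] at hre
    exact lt_irrefl _ hre
  have hG : Gammaℝ (1 / 2 + z) ≠ 0 := Gammaℝ_ne_zero_of_re_pos hre
  have hzt : riemannZeta (1 / 2 + z) ≠ 0 := riemannZeta_ne_zero_of_one_le_re (by
    rw [half_re]
    linarith)
  have d0 : HasDerivAt (fun z : ℂ => 1 / 2 + z) 1 z := (hasDerivAt_id z).const_add _
  have d1 : HasDerivAt (fun z : ℂ => Gammaℝ (1 / 2 + z))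
      ((-(Real.log Real.pi : ℂ) / 2 + 1 / 2 * logDeriv Gamma ((1 / 2 + z) / 2)) *
        Gammaℝ (1 / 2 + z)) z := by
    have := HasDerivAt.comp z (LDg.hasDerivAt_Gammaℝ hre) d0
    rw [mul_one] at this
    exact this
  have d2 : HasDerivAt (fun z : ℂ => z - 1 / 2) 1 z := (hasDerivAt_id z).sub_const _
  have d3 : HasDerivAt (fun z : ℂ => riemannZeta (1 / 2 + z)) (deriv riemannZeta (1 / 2 + z)) z := by
    have := HasDerivAt.comp z (differentiableAt_riemannZeta (s_ne_one h1)).hasDerivAt d0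
    rw [mul_one] at this
    exact this
  have d4 := (d0.mul d1).mul (d2.mul d3)
  have hev : Yz =ᶠ[𝓝 z] fun z : ℂ => (1 / 2 + z) * Gammaℝ (1 / 2 + z) *
      ((z - 1 / 2) * riemannZeta (1 / 2 + z)) := by
    have : {y : ℂ | 1 / 2 < y.re} ∈ 𝓝 z :=
      (isOpen_lt continuous_const continuous_re).mem_nhds hz
    filter_upwards [this] with y hy
    have hy' : 1 / 2 < y.re := hy
    exact Yz_eq (by linarith) (by
      intro h
      rw [h] at hy'
      norm_num at hy')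
  rw [logDeriv_apply, hev.deriv_eq, hev.self_of_nhds]
  have d5 : deriv (fun z : ℂ => (1 / 2 + z) * Gammaℝ (1 / 2 + z) *
      ((z - 1 / 2) * riemannZeta (1 / 2 + z))) z = _ := d4.deriv
  rw [d5, logDeriv_apply riemannZeta]
  unfold Gz
  simp only [Pi.mul_apply]
  have h2 := sub_half_ne h1
  clear d5 d4 d3 d2 d1 d0 hev
  generalize logDeriv Gamma ((1 / 2 + z) / 2) = G
  generalize deriv riemannZeta (1 / 2 + z) = D
  generalize riemannZeta (1 / 2 + z) = B at hzt ⊢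
  generalize Gammaℝ (1 / 2 + z) = A at hG ⊢
  generalize (Real.log Real.pi : ℂ) = P
  obtain ⟨u, hu⟩ : ∃ u : ℂ, u = 1 / 2 + z := ⟨_, rfl⟩
  obtain ⟨v, hv⟩ : ∃ v : ℂ, v = z - 1 / 2 := ⟨_, rfl⟩
  rw [← hu, ← hv]
  rw [← hu] at hs0
  rw [← hv] at h2
  field_simp
  ring

/-- the elementary part is small -/
lemma Gz_le : ∃ C : ℝ, 0 < C ∧ ∀ z : ℂ, 0 ≤ z.re → ‖Gz z‖ ≤ C * Real.log (2 + ‖z‖) := by
  obtain ⟨C, hC0, hC⟩ := LDg.digamma_le
  have hl2 : 0 < Real.log 2 := Real.log_pos (by norm_num)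
  have hlpi : 0 < Real.log Real.pi := Real.log_pos (by linarith [Real.pi_gt_three])
  refine ⟨(2 + Real.log Real.pi / 2 + C / 2) / Real.log 2 + 1, by positivity, fun z hz => ?_⟩
  have hz0 := norm_nonneg z
  have hre : ((1 / 2 + z) / 2).re = (1 / 2 + z.re) / 2 := by
    rw [show (2 : ℂ) = ((2 : ℝ) : ℂ) by norm_num, Complex.div_ofReal_re,
      show ((2 : ℝ) : ℂ) = 2 by norm_num, half_re]
  have h1 := hC ((1 / 2 + z) / 2) (by
    rw [hre]
    linarith)
  have hn : ‖(1 / 2 + z) / 2‖ ≤ ‖z‖ + 1 := by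
    rw [norm_div, Complex.norm_ofNat]
    have h2 : ‖(1 / 2 + z : ℂ)‖ ≤ 1 / 2 + ‖z‖ := by
      refine (norm_add_le _ _).trans ?_
      have : ‖(1 / 2 : ℂ)‖ = 1 / 2 := by norm_num
      rw [this]
    linarith
  have h3 : Real.log (2 + ‖(1 / 2 + z) / 2‖) ≤ 2 * Real.log (2 + ‖z‖) := by
    have : (2 : ℝ) * Real.log (2 + ‖z‖) = Real.log ((2 + ‖z‖) ^ 2) := by
      rw [Real.log_pow]
      norm_num
    rw [this]
    apply Real.log_le_log (by positivity)
    nlinarith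
  have h4 : Real.log 2 ≤ Real.log (2 + ‖z‖) := Real.log_le_log (by norm_num) (by linarith)
  have h5 : 2 + Real.log Real.pi / 2 + C / 2 ≤
      (2 + Real.log Real.pi / 2 + C / 2) / Real.log 2 * Real.log (2 + ‖z‖) := by
    rw [div_mul_eq_mul_div, le_div_iff₀ hl2]
    exact mul_le_mul_of_nonneg_left h4 (by positivity)
  have h6 : ‖1 / (1 / 2 + z)‖ ≤ 2 := by
    have h7 : 1 / 2 ≤ ‖(1 / 2 + z : ℂ)‖ := by
      refine le_trans ?_ (re_le_norm _)
      rw [half_re]
      linarith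
    rw [norm_div, norm_one, div_le_iff₀ (by linarith)]
    linarith
  have h8 : ‖-(Real.log Real.pi : ℂ) / 2‖ = Real.log Real.pi / 2 := by
    rw [norm_div, norm_neg, Complex.norm_real, Real.norm_eq_abs, abs_of_pos hlpi,
      Complex.norm_ofNat]
  unfold Gz
  calc _ ≤ ‖1 / (1 / 2 + z)‖ + (‖-(Real.log Real.pi : ℂ) / 2‖ +
        ‖1 / 2 * logDeriv Gamma ((1 / 2 + z) / 2)‖) :=
        (norm_add_le _ _).trans (by gcongr; exact norm_add_le _ _)
    _ = ‖1 / (1 / 2 + z)‖ + (Real.log Real.pi / 2 + 1 / 2 * ‖logDeriv Gamma ((1 / 2 + z) / 2)‖) := by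
        rw [h8, norm_mul]
        congr 3
        norm_num
    _ ≤ 2 + (Real.log Real.pi / 2 + 1 / 2 * (2 * Real.log (2 + ‖z‖) + C)) := by
        have := h1.trans (add_le_add_left h3 C)
        gcongr
    _ = (2 + Real.log Real.pi / 2 + C / 2) + Real.log (2 + ‖z‖) := by ring
    _ ≤ _ := by
        rw [add_mul, one_mul]
        linarith

/-- `ζ'/ζ` is bounded to the right of `3/2` -/
lemma zld_bound : ∃ D : ℝ, 0 ≤ D ∧ ∀ s : ℂ, 3 / 2 ≤ s.re → ‖logDeriv riemannZeta s‖ ≤ D := by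
  obtain ⟨D, hD, h⟩ := HDQ.LD_bound (1 : DirichletCharacter ℂ 1)
  unfold LD at h
  rw [DirichletCharacter.LFunction_modOne_eq] at h
  exact ⟨D, hD, h⟩

lemma Yz_log : ∃ C : ℝ, ∀ z : ℂ, 1 ≤ z.re → ‖logDeriv Yz z‖ ≤ C * Real.log (2 + ‖z‖) := by
  obtain ⟨C, hC0, hC⟩ := Gz_le
  obtain ⟨D, hD0, hD⟩ := zld_bound
  have hl2 : 0 < Real.log 2 := Real.log_pos (by norm_num)
  refine ⟨C + (2 + D) / Real.log 2, fun z hz => ?_⟩
  have hz0 := norm_nonneg z
  have h4 : Real.log 2 ≤ Real.log (2 + ‖z‖) := Real.log_le_log (by norm_num) (by linarith)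
  have h5 : 2 + D ≤ (2 + D) / Real.log 2 * Real.log (2 + ‖z‖) := by
    rw [div_mul_eq_mul_div, le_div_iff₀ hl2]
    exact mul_le_mul_of_nonneg_left h4 (by positivity)
  have h6 : ‖1 / (z - 1 / 2)‖ ≤ 2 := by
    have h7 : 1 / 2 ≤ ‖(z - 1 / 2 : ℂ)‖ := by
      refine le_trans ?_ (re_le_norm _)
      rw [sub_re]
      norm_num
      linarith
    rw [norm_div, norm_one, div_le_iff₀ (by linarith)]
    linarith
  rw [logDeriv_Yz (by linarith)]
  have h1 := hC z (by linarith)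
  have h2 := hD (1 / 2 + z) (by rw [half_re]; linarith)
  calc _ ≤ ‖Gz z‖ + ‖1 / (z - 1 / 2)‖ + ‖logDeriv riemannZeta (1 / 2 + z)‖ :=
        (norm_add_le _ _).trans (by gcongr; exact norm_add_le _ _)
    _ ≤ C * Real.log (2 + ‖z‖) + 2 + D := by gcongr
    _ ≤ _ := by
        rw [add_mul]
        linarith

/-- under the Riemann hypothesis the logarithmic derivative is small on every line off the
critical line -/
lemma Yz_line (hRH : RiemannHypothesis) (x : ℝ) (hx : 0 < x) :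
    ∃ C : ℝ, 0 < C ∧ ∀ z : ℂ, x ≤ |z.re| → ‖logDeriv Yz z‖ ≤ C * Real.log (2 + ‖z‖) := by
  obtain ⟨ι, a, m, H⟩ := t_Y Pool.Agent.H862.VP.t_PFC Yz 0 Yz_diff Yz_sym Yz_gr le_rfl (by norm_num)
    (fun s hs => by rw [Yz_zero hRH hs, abs_zero]) Yz_log
  obtain ⟨C, hC, h⟩ := t_gr _ _ _ _ _ H x hx
  refine ⟨C, hC, fun z hz => ?_⟩
  rcases le_or_gt 0 z.re with h1 | h1
  · rw [abs_of_nonneg h1] at hz
    exact h z hz
  · rw [abs_of_neg h1] at hz
    have h2 := yh.logDeriv_rf Yz_diff Yz_sym (-(conj z))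
    have e : -(conj (-(conj z))) = z := by rw [map_neg, Complex.conj_conj, neg_neg]
    rw [e] at h2
    rw [h2, norm_neg, RCLike.norm_conj]
    have h3 := h (-(conj z)) (by rw [neg_re, conj_re]; exact hz)
    rwa [norm_neg, RCLike.norm_conj] at h3

end Pool.Agent.H862.VK
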