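import Pool.Agent.H862.VK.Ker

/-!
# Estimates for the line integrals
-/

set_option autoImplicit false

open Complex MeasureTheory Filter Topology Set

namespace Pool.Agent.H862.VK

open H370 Pool.Agent.NH13

/-- the weight -/
noncomputable def hh (T y : ℝ) : ℝ :=
  Real.exp (-(y ^ 2 / (4 * T ^ 2))) * Real.log (3 + |y|) / (1 + |y|)

lemma hh_nonneg (T y : ℝ) : 0 ≤ hh T y := by
  unfold hh
  have := abs_nonneg y
  have h1 : 0 ≤ Real.log (3 + |y|) := Real.log_nonneg (by linarith)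
  positivity

lemma hh_cont (T : ℝ) : Continuous (hh T) := by
  unfold hh
  have h1 : Continuous fun y : ℝ => Real.log (3 + |y|) :=
    Continuous.log (by fun_prop) (fun y => by have := abs_nonneg y; positivity)
  have h2 : Continuous fun y : ℝ => Real.exp (-(y ^ 2 / (4 * T ^ 2))) := by fun_prop
  exact (h2.mul h1).div (by fun_prop) (fun y => by have := abs_nonneg y; positivity)

lemma gauss4_int {T : ℝ} (hT : 0 < T) :
    Integrable fun y : ℝ => Real.exp (-(y ^ 2 / (4 * T ^ 2))) := by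
  have := integrable_exp_neg_mul_sq (b := 1 / (4 * T ^ 2)) (by positivity)
  refine this.congr (Eventually.of_forall fun y => ?_)
  simp only
  congr 1
  ring

lemma log3_le (y : ℝ) : Real.log (3 + |y|) ≤ 2 * (1 + |y|) := by
  have h0 := abs_nonneg y
  have := Real.log_le_sub_one_of_pos (show 0 < 3 + |y| by positivity)
  linarith

lemma hh_le (T y : ℝ) : hh T y ≤ 2 * Real.exp (-(y ^ 2 / (4 * T ^ 2))) := by
  unfold hh
  have h0 := abs_nonneg y
  rw [div_le_iff₀ (by positivity)]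
  have := mul_le_mul_of_nonneg_left (log3_le y) (Real.exp_pos (-(y ^ 2 / (4 * T ^ 2)))).le
  linarith

lemma hh_int {T : ℝ} (hT : 0 < T) : Integrable (hh T) := by
  refine ((gauss4_int hT).const_mul 2).mono' (hh_cont T).aestronglyMeasurable
    (Eventually.of_forall fun y => ?_)
  rw [Real.norm_eq_abs, abs_of_nonneg (hh_nonneg T y)]
  exact hh_le T y

/-- the mass of the weight -/
lemma hh_mass {T : ℝ} (hT : 10 ≤ T) : ∫ y : ℝ, hh T y ≤ 40 * Real.log T ^ 2 := by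
  have hT0 : 0 < T := by linarith
  have e : ∀ y : ℝ, hh T y = (fun x : ℝ => hh T x) |y| := by
    intro y
    unfold hh
    simp only [sq_abs, abs_abs]
  have h1 : ∫ y : ℝ, hh T y = 2 * ∫ y in Ioi (0 : ℝ), hh T y := by
    rw [← integral_comp_abs (f := fun x : ℝ => hh T x)]
    exact integral_congr_ae (Eventually.of_forall e)
  have hR : (0 : ℝ) ≤ T ^ 2 := by positivity
  have h2 : ∫ y in Ioi (0 : ℝ), hh T y = (∫ y in Ioc (0 : ℝ) (T ^ 2), hh T y) +
      ∫ y in Ioi (T ^ 2), hh T y := by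
    rw [← setIntegral_union (Ioc_disjoint_Ioi le_rfl) measurableSet_Ioi
      ((hh_int hT0).integrableOn) ((hh_int hT0).integrableOn), Ioc_union_Ioi_eq_Ioi hR]
  have h3 : ∫ y in Ioc (0 : ℝ) (T ^ 2), hh T y ≤ Real.log (3 + T ^ 2) * Real.log (1 + T ^ 2) := by
    have h4 : ∫ y in Ioc (0 : ℝ) (T ^ 2), hh T y ≤
        ∫ y in Ioc (0 : ℝ) (T ^ 2), Real.log (3 + T ^ 2) * (1 + y)⁻¹ := by
      apply setIntegral_mono_on ((hh_int hT0).integrableOn) _ measurableSet_Ioc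
      · intro y hy
        unfold hh
        rw [abs_of_pos hy.1, div_eq_mul_inv]
        apply mul_le_mul_of_nonneg_right _ (by have := hy.1; positivity)
        have h5 : Real.exp (-(y ^ 2 / (4 * T ^ 2))) ≤ 1 := by
          rw [Real.exp_le_one_iff]
          have : 0 ≤ y ^ 2 / (4 * T ^ 2) := by positivity
          linarith
        have h6 : Real.log (3 + y) ≤ Real.log (3 + T ^ 2) :=
          Real.log_le_log (by linarith [hy.1]) (by linarith [hy.2])
        have h7 : 0 ≤ Real.log (3 + y) := Real.log_nonneg (by linarith [hy.1])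
        calc _ ≤ 1 * Real.log (3 + y) := mul_le_mul_of_nonneg_right h5 h7
          _ ≤ _ := by rw [one_mul]; exact h6
      · apply ContinuousOn.integrableOn_Icc (a := 0) (b := T ^ 2) _ |>.mono_set Ioc_subset_Icc_self
        apply continuousOn_const.mul
        apply ContinuousOn.inv₀ (by fun_prop)
        intro y hy
        have := hy.1
        positivity
    refine h4.trans (le_of_eq ?_)
    rw [integral_const_mul, ← intervalIntegral.integral_of_le hR]
    congr 1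
    have h5 : ∫ y in (0 : ℝ)..(T ^ 2), (1 + y)⁻¹ = ∫ y in (1 + 0 : ℝ)..(1 + T ^ 2), y⁻¹ :=
      intervalIntegral.integral_comp_add_left (fun y => y⁻¹) 1
    rw [h5, integral_inv_of_pos (by norm_num) (by positivity)]
    norm_num
  have h8 : ∫ y in Ioi (T ^ 2), hh T y ≤ 8 := by
    have hI := integrableOn_exp_mul_Ioi (show (-(1 / 4) : ℝ) < 0 by norm_num) (T ^ 2)
    have h9 : ∫ y in Ioi (T ^ 2), hh T y ≤ ∫ y in Ioi (T ^ 2), 2 * Real.exp (-(1 / 4) * y) := by
      apply setIntegral_mono_on ((hh_int hT0).integrableOn) (hI.const_mul 2) measurableSet_Ioi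
      intro y hy
      have hy' : T ^ 2 < y := hy
      refine (hh_le T y).trans ?_
      apply mul_le_mul_of_nonneg_left _ (by norm_num)
      apply Real.exp_le_exp.2
      have h10 : 1 / 4 * y ≤ y ^ 2 / (4 * T ^ 2) := by
        rw [le_div_iff₀ (by positivity)]
        have : 0 < y := lt_of_le_of_lt hR hy'
        nlinarith
      linarith
    refine h9.trans ?_
    rw [integral_const_mul, integral_exp_mul_Ioi (by norm_num)]
    have h11 : Real.exp (-(1 / 4) * T ^ 2) ≤ 1 := by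
      rw [Real.exp_le_one_iff]
      nlinarith
    linarith
  have hl : 1 ≤ Real.log T := by
    rw [Real.le_log_iff_exp_le hT0]
    have := Real.exp_one_lt_d9
    linarith
  have h12 : Real.log (3 + T ^ 2) ≤ 3 * Real.log T := by
    have : (3 : ℝ) * Real.log T = Real.log (T ^ 3) := by
      rw [Real.log_pow]
      norm_num
    rw [this]
    apply Real.log_le_log (by positivity)
    nlinarith [sq_nonneg T]
  have h13 : Real.log (1 + T ^ 2) ≤ 3 * Real.log T :=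
    (Real.log_le_log (by positivity) (by linarith)).trans h12
  have h14 : 0 ≤ Real.log (1 + T ^ 2) := Real.log_nonneg (by nlinarith)
  rw [h1, h2]
  nlinarith

/-- polynomials against the Gaussian -/
lemma poly_gauss {T : ℝ} (hT : 0 < T) (y : ℝ) :
    (1 + y ^ 2) * Real.exp (-(y ^ 2 / (2 * T ^ 2))) ≤
      (1 + 4 * T ^ 2) * Real.exp (-(y ^ 2 / (4 * T ^ 2))) := by
  have h1 := Real.add_one_le_exp (y ^ 2 / (4 * T ^ 2))
  have h2 : 1 + y ^ 2 ≤ (1 + 4 * T ^ 2) * Real.exp (y ^ 2 / (4 * T ^ 2)) := by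
    have h3 : y ^ 2 = 4 * T ^ 2 * (y ^ 2 / (4 * T ^ 2)) := by field_simp
    have h4 : 0 ≤ y ^ 2 / (4 * T ^ 2) := by positivity
    have h5 : 0 < T ^ 2 := by positivity
    calc 1 + y ^ 2 = 1 + 4 * T ^ 2 * (y ^ 2 / (4 * T ^ 2)) := by rw [← h3]
      _ ≤ (1 + 4 * T ^ 2) * (y ^ 2 / (4 * T ^ 2) + 1) := by nlinarith
      _ ≤ _ := mul_le_mul_of_nonneg_left h1 (by positivity)
  have e : Real.exp (-(y ^ 2 / (2 * T ^ 2))) =
      Real.exp (-(y ^ 2 / (4 * T ^ 2))) * Real.exp (-(y ^ 2 / (4 * T ^ 2))) := by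
    rw [← Real.exp_add]
    congr 1
    ring
  have e2 : Real.exp (y ^ 2 / (4 * T ^ 2)) * Real.exp (-(y ^ 2 / (4 * T ^ 2))) = 1 := by
    rw [← Real.exp_add]
    simp
  have h6 := Real.exp_pos (-(y ^ 2 / (4 * T ^ 2)))
  rw [e, ← mul_assoc]
  apply mul_le_mul_of_nonneg_right _ h6.le
  calc (1 + y ^ 2) * Real.exp (-(y ^ 2 / (4 * T ^ 2)))
      ≤ (1 + 4 * T ^ 2) * Real.exp (y ^ 2 / (4 * T ^ 2)) * Real.exp (-(y ^ 2 / (4 * T ^ 2))) :=
        mul_le_mul_of_nonneg_right h2 h6.le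
    _ = 1 + 4 * T ^ 2 := by rw [mul_assoc, e2, mul_one]

/-- functions of polynomial growth -/
lemma kk_int2 {T U : ℝ} (hT : 0 < T) {x : ℝ} (hx : -(1 / 4) ≤ x) (hx1 : x ≤ 1) {f : ℝ → ℂ}
    (hf : Continuous f) {C : ℝ} (hC : ∀ y, ‖f y‖ ≤ C * (1 + y ^ 2)) :
    Integrable (fun y : ℝ => f y * kk T U ⟨x, y⟩) := by
  have hC0 : 0 ≤ C := by
    have := (norm_nonneg _).trans (hC 0)
    simpa using this
  refine ((gauss4_int hT).const_mul (C * MM0 T U * (1 + 4 * T ^ 2))).mono'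
    (hf.mul (kk_cont T U x)).aestronglyMeasurable (Eventually.of_forall fun y => ?_)
  rw [norm_mul]
  calc ‖f y‖ * ‖kk T U ⟨x, y⟩‖ ≤ (C * (1 + y ^ 2)) * (MM0 T U * Real.exp (-(y ^ 2 / (2 * T ^ 2)))) :=
        mul_le_mul (hC y) (kk_strip T U x y hx hx1) (norm_nonneg _) (by positivity)
    _ = C * MM0 T U * ((1 + y ^ 2) * Real.exp (-(y ^ 2 / (2 * T ^ 2)))) := by ring
    _ ≤ C * MM0 T U * ((1 + 4 * T ^ 2) * Real.exp (-(y ^ 2 / (4 * T ^ 2)))) :=
        mul_le_mul_of_nonneg_left (poly_gauss hT y) (mul_nonneg hC0 (MM0_nonneg T U))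
    _ = _ := by ring

/-- lines in `-1/4 ≤ Re z ≤ 0` -/
lemma kk_left {T U : ℝ} (hT : 1 ≤ T) (hU : 0 ≤ U) (x y : ℝ) (hx : -(1 / 4) ≤ x) (hx0 : x ≤ 0) :
    ‖kk T U ⟨x, y⟩‖ ≤ 10 * (Real.exp (U / 2) + 1) *
      (Real.exp (-(y ^ 2 / (4 * T ^ 2))) / (1 + |y|)) := by
  have hy0 := abs_nonneg y
  refine (kk_norm T U x y (by linarith)).trans ?_
  have h1 : (1 + |y|) / 5 ≤ ‖(1 / 2 + (⟨x, y⟩ : ℂ))‖ := by
    rcases le_or_gt |y| (1 / 4) with h | h
    · refine le_trans ?_ (re_le_norm _)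
      rw [add_re]
      norm_num
      linarith
    · refine le_trans ?_ (abs_im_le_norm _)
      rw [add_im]
      norm_num
      linarith
  have h2 : Real.exp ((x ^ 2 - y ^ 2) / (2 * T ^ 2)) ≤ 2 * Real.exp (-(y ^ 2 / (4 * T ^ 2))) := by
    have hl2 : Real.exp (1 / 32 : ℝ) ≤ 2 := by
      have h3 := Real.exp_bound_div_one_sub_of_interval' (x := 1 / 32) (by norm_num) (by norm_num)
      have : (1 : ℝ) / (1 - 1 / 32) ≤ 2 := by norm_num
      linarith
    have h3 : (x ^ 2 - y ^ 2) / (2 * T ^ 2) ≤ 1 / 32 + -(y ^ 2 / (4 * T ^ 2)) := by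
      have hTT : 1 ≤ T ^ 2 := one_le_pow₀ hT
      have e : (x ^ 2 - y ^ 2) / (2 * T ^ 2) = x ^ 2 / (2 * T ^ 2) - 2 * (y ^ 2 / (4 * T ^ 2)) := by
        field_simp
        ring
      have h4 : x ^ 2 / (2 * T ^ 2) ≤ 1 / 32 := by
        rw [div_le_iff₀ (by positivity)]
        nlinarith
      have h5 : 0 ≤ y ^ 2 / (4 * T ^ 2) := by positivity
      linarith
    calc _ ≤ Real.exp (1 / 32 + -(y ^ 2 / (4 * T ^ 2))) := Real.exp_le_exp.2 h3
      _ = Real.exp (1 / 32) * Real.exp (-(y ^ 2 / (4 * T ^ 2))) := Real.exp_add _ _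
      _ ≤ _ := mul_le_mul_of_nonneg_right hl2 (Real.exp_pos _).le
  have h6 : Real.exp ((1 / 2 + x) * U) ≤ Real.exp (U / 2) := by
    apply Real.exp_le_exp.2
    nlinarith
  have h7 : (Real.exp ((1 / 2 + x) * U) + 1) / ‖(1 / 2 + (⟨x, y⟩ : ℂ))‖ ≤
      (Real.exp (U / 2) + 1) / ((1 + |y|) / 5) := by
    gcongr
  calc _ ≤ (2 * Real.exp (-(y ^ 2 / (4 * T ^ 2)))) * ((Real.exp (U / 2) + 1) / ((1 + |y|) / 5)) :=
        mul_le_mul h2 h7 (by positivity) (by positivity)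
    _ = _ := by
        field_simp
        ring

/-- line integrals over lines in `-1/4 ≤ Re z ≤ 0` -/
lemma line_le {T U : ℝ} (hT : 10 ≤ T) (hU : 0 ≤ U) (x : ℝ) (hx : -(1 / 4) ≤ x) (hx0 : x ≤ 0)
    {f : ℝ → ℂ} {C : ℝ} (hC0 : 0 ≤ C) (hC : ∀ y, ‖f y‖ ≤ C * Real.log (3 + |y|)) :
    ‖∫ y : ℝ, f y * kk T U ⟨x, y⟩‖ ≤ 400 * C * ((Real.exp (U / 2) + 1) * Real.log T ^ 2) := by
  have h1 : ‖∫ y : ℝ, f y * kk T U ⟨x, y⟩‖ ≤ ∫ y : ℝ, C * (10 * (Real.exp (U / 2) + 1)) * hh T y := by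
    apply norm_integral_le_of_norm_le ((hh_int (by linarith)).const_mul _)
    refine Eventually.of_forall fun y => ?_
    have h0 := abs_nonneg y
    have hl : 0 ≤ Real.log (3 + |y|) := Real.log_nonneg (by linarith)
    rw [norm_mul]
    calc ‖f y‖ * ‖kk T U ⟨x, y⟩‖ ≤ (C * Real.log (3 + |y|)) * (10 * (Real.exp (U / 2) + 1) *
          (Real.exp (-(y ^ 2 / (4 * T ^ 2))) / (1 + |y|))) :=
          mul_le_mul (hC y) (kk_left (by linarith) hU x y hx hx0) (norm_nonneg _) (by positivity)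
      _ = _ := by
          unfold hh
          ring
  rw [integral_const_mul] at h1
  refine h1.trans ?_
  have h2 := hh_mass hT
  have h3 : 0 ≤ C * (10 * (Real.exp (U / 2) + 1)) := by positivity
  calc _ ≤ C * (10 * (Real.exp (U / 2) + 1)) * (40 * Real.log T ^ 2) :=
        mul_le_mul_of_nonneg_left h2 h3
    _ = _ := by ring

/-- shift of a function of polynomial growth from `Re z = 1` to `Re z = 0` -/
lemma shiftG {T U : ℝ} (hT : 0 < T) {G : ℂ → ℂ} {C : ℝ}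
    (hG : ∀ z : ℂ, 0 ≤ z.re → z.re ≤ 1 → DifferentiableAt ℂ G z)
    (hC : ∀ z : ℂ, 0 ≤ z.re → z.re ≤ 1 → ‖G z‖ ≤ C * (1 + z.im ^ 2)) :
    ∫ y : ℝ, G ⟨1, y⟩ * kk T U ⟨1, y⟩ = ∫ y : ℝ, G ⟨0, y⟩ * kk T U ⟨0, y⟩ := by
  have hcont : ∀ x : ℝ, 0 ≤ x → x ≤ 1 → Continuous (fun y : ℝ => G ⟨x, y⟩) := by
    intro x hx hx1
    rw [continuous_iff_continuousAt]
    intro y
    have h1 : ContinuousAt G (⟨x, y⟩ : ℂ) := (hG ⟨x, y⟩ hx hx1).continuousAt
    exact ContinuousAt.comp (f := fun y : ℝ => (⟨x, y⟩ : ℂ)) h1 (mk_cont x).continuousAt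
  have hC0 : 0 ≤ C := by
    have := (norm_nonneg _).trans (hC 0 le_rfl (by simp))
    simpa using this
  have h := shift0 (G := fun z => G z * kk T U z) (a := 0) (b := 1)
    (D := fun R => C * MM0 T U * (1 + 4 * T ^ 2) * Real.exp (-(R ^ 2 / (4 * T ^ 2)))) (by norm_num)
    (fun z h1 h2 => (hG z h1 h2).mul (kk_diff T U z))
    (kk_int2 hT (by norm_num) (by norm_num) (hcont 0 le_rfl (by norm_num))
      (fun y => hC ⟨0, y⟩ le_rfl (by norm_num)))
    (kk_int2 hT (by norm_num) (by norm_num) (hcont 1 (by norm_num) le_rfl)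
      (fun y => hC ⟨1, y⟩ (by norm_num) le_rfl))
    (by
      have h1 : Tendsto (fun y : ℝ => -(y ^ 2 / (4 * T ^ 2))) atTop atBot := by
        apply tendsto_neg_atTop_atBot.comp
        exact (tendsto_pow_atTop (by norm_num)).atTop_div_const (by positivity)
      have h2 := (Real.tendsto_exp_atBot.comp h1).const_mul (C * MM0 T U * (1 + 4 * T ^ 2))
      rw [mul_zero] at h2
      exact h2)
    (by
      intro x hx y R hR hy
      rw [← hy, sq_abs, norm_mul]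
      calc ‖G ⟨x, y⟩‖ * ‖kk T U ⟨x, y⟩‖
          ≤ (C * (1 + y ^ 2)) * (MM0 T U * Real.exp (-(y ^ 2 / (2 * T ^ 2)))) :=
            mul_le_mul (hC ⟨x, y⟩ hx.1 hx.2) (kk_strip T U x y (by linarith [hx.1]) hx.2)
              (norm_nonneg _) (by positivity)
        _ = C * MM0 T U * ((1 + y ^ 2) * Real.exp (-(y ^ 2 / (2 * T ^ 2)))) := by ring
        _ ≤ C * MM0 T U * ((1 + 4 * T ^ 2) * Real.exp (-(y ^ 2 / (4 * T ^ 2)))) :=
            mul_le_mul_of_nonneg_left (poly_gauss hT y) (mul_nonneg hC0 (MM0_nonneg T U))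
        _ = _ := by ring)
  exact h

end Pool.Agent.H862.VK
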