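import Pool.Graph.R_pool_sql_team_seeded_3dad9d7b.NH13.Shift

/-!
# The kernel and the shift of the line of integration
-/

set_option autoImplicit false

open Complex MeasureTheory Filter Topology Set

namespace Pool.Agent.H862.VK

open H370 Pool.Agent.NH13

/-- the kernel: `exp(z²/(2T²)) (exp((1/2+z)U) - 1)/(1/2+z)` -/
noncomputable def kk (T U : ℝ) (z : ℂ) : ℂ :=
  cexp (z ^ 2 / (2 * T ^ 2)) * dslope (fun w : ℂ => cexp (w * U)) 0 (1 / 2 + z)

lemma kk_diff (T U : ℝ) : Differentiable ℂ (kk T U) := by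
  have h1 : Differentiable ℂ (fun w : ℂ => cexp (w * U)) := by fun_prop
  have h2 : Differentiable ℂ (dslope (fun w : ℂ => cexp (w * U)) 0) := by
    have := (Complex.differentiableOn_dslope (s := Set.univ) (c := 0)
      (f := fun w : ℂ => cexp (w * U)) univ_mem).2 h1.differentiableOn
    exact differentiableOn_univ.1 this
  unfold kk
  have h3 : Differentiable ℂ (fun z : ℂ => cexp (z ^ 2 / (2 * T ^ 2))) := by fun_prop
  exact h3.mul (h2.comp ((differentiable_const _).add differentiable_id))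

lemma kk_eq (T U : ℝ) {z : ℂ} (hz : (1 / 2 + z : ℂ) ≠ 0) :
    kk T U z = cexp (z ^ 2 / (2 * T ^ 2)) * ((cexp ((1 / 2 + z) * U) - 1) / (1 / 2 + z)) := by
  unfold kk
  rw [dslope_of_ne _ hz, slope_def_field, zero_mul, Complex.exp_zero, sub_zero]

lemma kk_norm (T U : ℝ) (x y : ℝ) (hx : -(1 / 2) < x) :
    ‖kk T U ⟨x, y⟩‖ ≤ Real.exp ((x ^ 2 - y ^ 2) / (2 * T ^ 2)) *
      ((Real.exp ((1 / 2 + x) * U) + 1) / ‖(1 / 2 + (⟨x, y⟩ : ℂ))‖) := by
  have hne : (1 / 2 + (⟨x, y⟩ : ℂ)) ≠ 0 := by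
    intro h
    have := congrArg Complex.re h
    rw [add_re] at this
    norm_num at this
    linarith
  rw [kk_eq T U hne, norm_mul, norm_div, Complex.norm_exp]
  have e1 : ((⟨x, y⟩ : ℂ) ^ 2 / (2 * T ^ 2)).re = (x ^ 2 - y ^ 2) / (2 * T ^ 2) := by
    have : ((2 : ℂ) * (T : ℂ) ^ 2) = ((2 * T ^ 2 : ℝ) : ℂ) := by push_cast; ring
    rw [this, Complex.div_ofReal_re]
    congr 1
    rw [pow_two, mul_re]
    simp only
    ring
  have e2 : ‖cexp ((1 / 2 + (⟨x, y⟩ : ℂ)) * U) - 1‖ ≤ Real.exp ((1 / 2 + x) * U) + 1 := by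
    refine (norm_sub_le _ _).trans ?_
    rw [norm_one, Complex.norm_exp, re_mul_ofReal, add_re]
    norm_num
  rw [e1]
  gcongr

/-- the size of the kernel in the strip -/
noncomputable def MM0 (T U : ℝ) : ℝ :=
  Real.exp (1 / (2 * T ^ 2)) * (4 * (Real.exp (3 / 2 * |U|) + 1))

lemma MM0_nonneg (T U : ℝ) : 0 ≤ MM0 T U := by
  unfold MM0
  positivity

lemma kk_strip (T U : ℝ) (x y : ℝ) (hx : -(1 / 4) ≤ x) (hx1 : x ≤ 1) :
    ‖kk T U ⟨x, y⟩‖ ≤ MM0 T U * Real.exp (-(y ^ 2 / (2 * T ^ 2))) := by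
  refine (kk_norm T U x y (by linarith)).trans ?_
  have h1 : 1 / 4 ≤ ‖(1 / 2 + (⟨x, y⟩ : ℂ))‖ := by
    refine le_trans ?_ (re_le_norm _)
    rw [add_re]
    norm_num
    linarith
  have h2 : Real.exp ((x ^ 2 - y ^ 2) / (2 * T ^ 2)) ≤
      Real.exp (1 / (2 * T ^ 2)) * Real.exp (-(y ^ 2 / (2 * T ^ 2))) := by
    rw [← Real.exp_add]
    apply Real.exp_le_exp.2
    rw [sub_div, sub_eq_add_neg]
    gcongr
    nlinarith
  have h3 : Real.exp ((1 / 2 + x) * U) ≤ Real.exp (3 / 2 * |U|) := by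
    apply Real.exp_le_exp.2
    calc (1 / 2 + x) * U ≤ (1 / 2 + x) * |U| :=
          mul_le_mul_of_nonneg_left (le_abs_self U) (by linarith)
      _ ≤ 3 / 2 * |U| := mul_le_mul_of_nonneg_right (by linarith) (abs_nonneg U)
  have h4 : (Real.exp ((1 / 2 + x) * U) + 1) / ‖(1 / 2 + (⟨x, y⟩ : ℂ))‖ ≤
      4 * (Real.exp (3 / 2 * |U|) + 1) := by
    rw [div_le_iff₀ (by linarith)]
    have h5 : 0 < Real.exp (3 / 2 * |U|) := Real.exp_pos _
    nlinarith
  unfold MM0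
  calc _ ≤ Real.exp (1 / (2 * T ^ 2)) * Real.exp (-(y ^ 2 / (2 * T ^ 2))) *
        (4 * (Real.exp (3 / 2 * |U|) + 1)) := by
        apply mul_le_mul h2 h4 (by positivity) (by positivity)
    _ = _ := by ring

lemma gauss_int {T : ℝ} (hT : 0 < T) : Integrable fun y : ℝ => Real.exp (-(y ^ 2 / (2 * T ^ 2))) := by
  have := integrable_exp_neg_mul_sq (b := 1 / (2 * T ^ 2)) (by positivity)
  refine this.congr (Eventually.of_forall fun y => ?_)
  simp only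
  congr 1
  ring

lemma gauss_lim {T : ℝ} (hT : 0 < T) (M : ℝ) :
    Tendsto (fun y : ℝ => M * Real.exp (-(y ^ 2 / (2 * T ^ 2)))) atTop (𝓝 0) := by
  have h1 : Tendsto (fun y : ℝ => -(y ^ 2 / (2 * T ^ 2))) atTop atBot := by
    apply tendsto_neg_atTop_atBot.comp
    exact (tendsto_pow_atTop (by norm_num)).atTop_div_const (by positivity)
  have h2 := (Real.tendsto_exp_atBot.comp h1).const_mul M
  rw [mul_zero] at h2
  exact h2

/-- the boundary integrals of long rectangles -/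
lemma RI_lim {G : ℂ → ℂ} {a b : ℝ} {D : ℝ → ℝ} (hab : a ≤ b)
    (hia : Integrable (fun y : ℝ => G ⟨a, y⟩)) (hib : Integrable (fun y : ℝ => G ⟨b, y⟩))
    (hD : Tendsto D atTop (𝓝 0))
    (hC : ∀ x ∈ Icc a b, ∀ y : ℝ, ∀ T : ℝ, 1 ≤ T → |y| = T → ‖G ⟨x, y⟩‖ ≤ D T) :
    Tendsto (fun T : ℝ => RI a b (-T) T G) atTop
      (𝓝 (I * (∫ y : ℝ, G ⟨b, y⟩) - I * ∫ y : ℝ, G ⟨a, y⟩)) := by
  have hlim : Tendsto (fun T : ℝ => D T * (b - a)) atTop (𝓝 0) := by
    have := hD.mul_const (b - a)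
    rwa [zero_mul] at this
  have hbd : ∀ T : ℝ, 1 ≤ T → ∀ y : ℝ, |y| = T → ‖∫ x in a..b, G ⟨x, y⟩‖ ≤ D T * (b - a) := by
    intro T hT y hy
    have h := intervalIntegral.norm_integral_le_of_norm_le_const (a := a) (b := b)
      (f := fun x : ℝ => G ⟨x, y⟩) (C := D T) (by
        intro x hx
        rw [uIoc_of_le hab] at hx
        exact hC x ⟨hx.1.le, hx.2⟩ y T hT hy)
    rwa [abs_of_nonneg (by linarith)] at h
  have h1 : Tendsto (fun T : ℝ => ∫ x in a..b, G ⟨x, T⟩) atTop (𝓝 0) := by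
    apply squeeze_zero_norm' _ hlim
    filter_upwards [eventually_ge_atTop 1] with T hT
    exact hbd T hT T (abs_of_nonneg (by linarith))
  have h2 : Tendsto (fun T : ℝ => ∫ x in a..b, G ⟨x, -T⟩) atTop (𝓝 0) := by
    apply squeeze_zero_norm' _ hlim
    filter_upwards [eventually_ge_atTop 1] with T hT
    exact hbd T hT (-T) (by rw [abs_neg, abs_of_nonneg (by linarith)])
  have h3 := intervalIntegral_tendsto_integral hib tendsto_neg_atTop_atBot tendsto_id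
  have h4 := intervalIntegral_tendsto_integral hia tendsto_neg_atTop_atBot tendsto_id
  have h5 := ((h2.sub h1).add (h3.const_mul I)).sub (h4.const_mul I)
  simpa [RI] using h5

/-- shift without poles -/
lemma shift0 {G : ℂ → ℂ} {a b : ℝ} {D : ℝ → ℝ} (hab : a ≤ b)
    (hG : ∀ z : ℂ, a ≤ z.re → z.re ≤ b → DifferentiableAt ℂ G z)
    (hia : Integrable (fun y : ℝ => G ⟨a, y⟩)) (hib : Integrable (fun y : ℝ => G ⟨b, y⟩))
    (hD : Tendsto D atTop (𝓝 0))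
    (hC : ∀ x ∈ Icc a b, ∀ y : ℝ, ∀ T : ℝ, 1 ≤ T → |y| = T → ‖G ⟨x, y⟩‖ ≤ D T) :
    ∫ y : ℝ, G ⟨b, y⟩ = ∫ y : ℝ, G ⟨a, y⟩ := by
  have h1 := RI_lim hab hia hib hD hC
  have h2 : ∀ T : ℝ, 0 < T → RI a b (-T) T G = 0 := by
    intro T hT
    apply RI_zero hab (by linarith)
    intro z hz
    have hz1 := hz.1
    rw [mem_preimage] at hz1
    exact (hG z hz1.1 hz1.2).differentiableWithinAt
  have h3 : Tendsto (fun T : ℝ => RI a b (-T) T G) atTop (𝓝 0) := by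
    apply tendsto_const_nhds.congr'
    filter_upwards [eventually_gt_atTop 0] with T hT
    exact (h2 T hT).symm
  have h4 := tendsto_nhds_unique h1 h3
  have h5 : I * ((∫ y : ℝ, G ⟨b, y⟩) - ∫ y : ℝ, G ⟨a, y⟩) = 0 := by
    rw [mul_sub]; exact h4
  exact sub_eq_zero.mp ((mul_eq_zero.mp h5).resolve_left I_ne_zero)

/-- shift across a simple pole -/
lemma shift1 {K : ℂ → ℂ} (hK : Differentiable ℂ K) {a b : ℝ} {p : ℂ} {D : ℝ → ℝ} (ha : a < p.re)
    (hb : p.re < b)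
    (hia : Integrable (fun y : ℝ => K ⟨a, y⟩ * ((⟨a, y⟩ : ℂ) - p)⁻¹))
    (hib : Integrable (fun y : ℝ => K ⟨b, y⟩ * ((⟨b, y⟩ : ℂ) - p)⁻¹))
    (hD : Tendsto D atTop (𝓝 0))
    (hC : ∀ x ∈ Icc a b, ∀ y : ℝ, ∀ T : ℝ, 1 ≤ T → |y| = T → ‖K ⟨x, y⟩‖ ≤ D T) :
    (∫ y : ℝ, K ⟨b, y⟩ * ((⟨b, y⟩ : ℂ) - p)⁻¹) - (∫ y : ℝ, K ⟨a, y⟩ * ((⟨a, y⟩ : ℂ) - p)⁻¹) =
      2 * Real.pi * K p := by
  have hab : a < b := ha.trans hb
  have hlim : Tendsto (fun T : ℝ => D T * (T - |p.im|)⁻¹) atTop (𝓝 0) := by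
    have h1 : Tendsto (fun T : ℝ => T - |p.im|) atTop atTop :=
      tendsto_atTop_add_const_right atTop (-|p.im|) tendsto_id
    have := hD.mul (tendsto_inv_atTop_zero.comp h1)
    rwa [mul_zero] at this
  have h1 : Tendsto (fun T : ℝ => RI a b (-T) T (fun z => K z * (z - p)⁻¹)) atTop
      (𝓝 (I * (∫ y : ℝ, K ⟨b, y⟩ * ((⟨b, y⟩ : ℂ) - p)⁻¹) -
        I * ∫ y : ℝ, K ⟨a, y⟩ * ((⟨a, y⟩ : ℂ) - p)⁻¹)) := by
    have hlim2 : Tendsto (fun T : ℝ => D T * (T - |p.im|)⁻¹ * (b - a)) atTop (𝓝 0) := by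
      have := hlim.mul_const (b - a)
      rwa [zero_mul] at this
    have hbd : ∀ T : ℝ, 1 ≤ T → |p.im| + 1 ≤ T → ∀ y : ℝ, |y| = T →
        ‖∫ x in a..b, K ⟨x, y⟩ * ((⟨x, y⟩ : ℂ) - p)⁻¹‖ ≤ D T * (T - |p.im|)⁻¹ * (b - a) := by
      intro T hT hT2 y hy
      have h := intervalIntegral.norm_integral_le_of_norm_le_const (a := a) (b := b)
        (f := fun x : ℝ => K ⟨x, y⟩ * ((⟨x, y⟩ : ℂ) - p)⁻¹) (C := D T * (T - |p.im|)⁻¹) (by
          intro x hx
          rw [uIoc_of_le hab.le] at hx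
          have hk := hC x ⟨hx.1.le, hx.2⟩ y T hT hy
          have h6 : T - |p.im| ≤ ‖(⟨x, y⟩ : ℂ) - p‖ := by
            refine le_trans ?_ (abs_im_le_norm _)
            rw [sub_im]
            show T - |p.im| ≤ |y - p.im|
            have := abs_sub_abs_le_abs_sub y p.im
            rw [hy] at this
            exact this
          rw [norm_mul, norm_inv]
          have h7 : 0 < T - |p.im| := by linarith
          apply mul_le_mul hk _ (by positivity) ((norm_nonneg _).trans hk)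
          exact inv_anti₀ h7 h6)
      rwa [abs_of_nonneg (by linarith : (0 : ℝ) ≤ b - a)] at h
    have h1 : Tendsto (fun T : ℝ => ∫ x in a..b, K ⟨x, T⟩ * ((⟨x, T⟩ : ℂ) - p)⁻¹) atTop (𝓝 0) := by
      apply squeeze_zero_norm' _ hlim2
      filter_upwards [eventually_ge_atTop 1, eventually_ge_atTop (|p.im| + 1)] with T hT hT2
      exact hbd T hT hT2 T (abs_of_nonneg (by linarith))
    have h2 : Tendsto (fun T : ℝ => ∫ x in a..b, K ⟨x, -T⟩ * ((⟨x, -T⟩ : ℂ) - p)⁻¹) atTop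
        (𝓝 0) := by
      apply squeeze_zero_norm' _ hlim2
      filter_upwards [eventually_ge_atTop 1, eventually_ge_atTop (|p.im| + 1)] with T hT hT2
      exact hbd T hT hT2 (-T) (by rw [abs_neg, abs_of_nonneg (by linarith)])
    have h3 := intervalIntegral_tendsto_integral hib tendsto_neg_atTop_atBot tendsto_id
    have h4 := intervalIntegral_tendsto_integral hia tendsto_neg_atTop_atBot tendsto_id
    have h5 := ((h2.sub h1).add (h3.const_mul I)).sub (h4.const_mul I)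
    simpa [RI] using h5
  have h2 : ∀ T : ℝ, |p.im| < T → RI a b (-T) T (fun z => K z * (z - p)⁻¹) =
      2 * Real.pi * I * K p := by
    intro T hT
    have h3 := abs_lt.1 hT
    exact RI_cauchy (a := a) (b := b) (c := -T) (d := T) hab (by
      have := abs_nonneg p.im
      linarith) hK (p := p) ⟨⟨ha, hb⟩, ⟨h3.1, h3.2⟩⟩
  have h3 : Tendsto (fun T : ℝ => RI a b (-T) T (fun z => K z * (z - p)⁻¹)) atTop
      (𝓝 (2 * Real.pi * I * K p)) := by
    apply tendsto_const_nhds.congr'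
    filter_upwards [eventually_gt_atTop |p.im|] with T hT
    exact (h2 T hT).symm
  have h4 := tendsto_nhds_unique h1 h3
  have h5 : I * ((∫ y : ℝ, K ⟨b, y⟩ * ((⟨b, y⟩ : ℂ) - p)⁻¹) -
      ∫ y : ℝ, K ⟨a, y⟩ * ((⟨a, y⟩ : ℂ) - p)⁻¹) = I * (2 * Real.pi * K p) := by
    rw [mul_sub, h4]; ring
  exact mul_left_cancel₀ I_ne_zero h5

lemma kk_cont (T U : ℝ) (x : ℝ) : Continuous (fun y : ℝ => kk T U ⟨x, y⟩) :=
  cont_line (kk_diff T U).continuous x

/-- products with bounded functions on a line -/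
lemma kk_int {T U : ℝ} (hT : 0 < T) {x : ℝ} (hx : -(1 / 4) ≤ x) (hx1 : x ≤ 1) {f : ℝ → ℂ}
    (hf : Continuous f) {C : ℝ} (hC : ∀ y, ‖f y‖ ≤ C) :
    Integrable (fun y : ℝ => f y * kk T U ⟨x, y⟩) := by
  refine ((gauss_int hT).const_mul (C * MM0 T U)).mono'
    (hf.mul (kk_cont T U x)).aestronglyMeasurable (Eventually.of_forall fun y => ?_)
  rw [norm_mul, mul_assoc]
  exact mul_le_mul (hC y) (kk_strip T U x y hx hx1) (norm_nonneg _) ((norm_nonneg _).trans (hC y))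

lemma mk_cont (x : ℝ) : Continuous (fun y : ℝ => (⟨x, y⟩ : ℂ)) := cont_line continuous_id x

lemma inv_cont {x : ℝ} {p : ℂ} (h : x ≠ p.re) : Continuous (fun y : ℝ => ((⟨x, y⟩ : ℂ) - p)⁻¹) := by
  apply ((mk_cont x).sub continuous_const).inv₀
  intro y hy
  have h1 : ((⟨x, y⟩ : ℂ) - p).re = 0 := by
    have h2 : (⟨x, y⟩ : ℂ) - p = 0 := hy
    rw [h2, zero_re]
  rw [sub_re] at h1
  exact h (by linarith)

lemma inv_le' {x : ℝ} {p : ℂ} (h : x ≠ p.re) (y : ℝ) : ‖((⟨x, y⟩ : ℂ) - p)⁻¹‖ ≤ |x - p.re|⁻¹ := by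
  rw [norm_inv]
  apply inv_anti₀ (abs_pos.2 (sub_ne_zero.2 h))
  exact abs_re_le_norm ((⟨x, y⟩ : ℂ) - p)

/-- one pole between `-1/4` and `1` -/
lemma one_pole {T U : ℝ} (hT : 0 < T) {a b : ℝ} (ha0 : -(1 / 4) ≤ a) (hb1 : b ≤ 1) {p : ℂ}
    (ha : a < p.re) (hb : p.re < b) :
    (∫ y : ℝ, ((⟨b, y⟩ : ℂ) - p)⁻¹ * kk T U ⟨b, y⟩) -
      (∫ y : ℝ, ((⟨a, y⟩ : ℂ) - p)⁻¹ * kk T U ⟨a, y⟩) = 2 * Real.pi * kk T U p := by
  have hia := kk_int (U := U) hT ha0 (by linarith) (inv_cont ha.ne) (inv_le' ha.ne)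
  have hib := kk_int (U := U) hT (by linarith) hb1 (inv_cont hb.ne') (inv_le' hb.ne')
  have h := shift1 (kk_diff T U) (a := a) (b := b) (p := p) ha hb (by
    simpa only [mul_comm] using hia) (by simpa only [mul_comm] using hib)
    (gauss_lim hT (MM0 T U)) (by
      intro x hx y R hR hy
      rw [← hy, sq_abs]
      exact kk_strip T U x y (by linarith [hx.1]) (by linarith [hx.2]))
  simpa only [mul_comm] using h

/-- no pole -/
lemma no_pole {T U : ℝ} (hT : 0 < T) {a b : ℝ} (ha0 : -(1 / 4) ≤ a) (hab : a ≤ b) (hb1 : b ≤ 1) :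
    ∫ y : ℝ, kk T U ⟨b, y⟩ = ∫ y : ℝ, kk T U ⟨a, y⟩ := by
  have h1 : ∀ x : ℝ, -(1 / 4) ≤ x → x ≤ 1 → Integrable (fun y : ℝ => kk T U ⟨x, y⟩) := by
    intro x hx hx1
    have := kk_int (U := U) hT hx hx1 (f := fun _ => 1) continuous_const (C := 1) (fun y => by simp)
    simpa using this
  exact shift0 hab (fun z _ _ => kk_diff T U z) (h1 a ha0 (by linarith))
    (h1 b (by linarith) hb1) (gauss_lim hT (MM0 T U)) (by
      intro x hx y R hR hy
      rw [← hy, sq_abs]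
      exact kk_strip T U x y (by linarith [hx.1]) (by linarith [hx.2]))

end Pool.Agent.H862.VK
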