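import Pool.Agent.H862.VK.Est
import Pool.Agent.H862.VK.Zt
import Pool.Graph.R_pool_sql_team_seeded_3dad9d7b.NH13.LV.PsC

/-!
# The primes
-/

set_option autoImplicit false

open Complex MeasureTheory Filter Topology Set

namespace Pool.Agent.H862.VK

open H370 Pool.Agent.NH13 Pool.Agent.NH13.LV.Ps
open ArithmeticFunction (vonMangoldt)

/-- `-ζ'/ζ` on the line `3/2` -/
noncomputable def Zp (y : ℝ) : ℂ := -logDeriv riemannZeta ⟨3 / 2, y⟩

/-- the Gaussian -/
noncomputable def EE (T u y : ℝ) : ℂ := cexp ((⟨1, y⟩ : ℂ) ^ 2 / (2 * T ^ 2) + (⟨1, y⟩ : ℂ) * u)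

lemma mk_one (y : ℝ) : (⟨1, y⟩ : ℂ) = 1 + y * I := by
  apply Complex.ext <;> simp

lemma EE_int_val {T : ℝ} (hT : 0 < T) (v : ℝ) :
    ∫ y : ℝ, EE T v y = ((T * Real.sqrt (2 * Real.pi) * Real.exp (-(T ^ 2 * v ^ 2 / 2)) : ℝ) : ℂ) := by
  have hT2 : (T : ℂ) ≠ 0 := ofReal_ne_zero.2 hT.ne'
  have hb : (-(1 / (2 * (T : ℂ) ^ 2))).re < 0 := by
    have : -(1 / (2 * (T : ℂ) ^ 2)) = ((-(1 / (2 * T ^ 2)) : ℝ) : ℂ) := by push_cast; ring
    rw [this, ofReal_re]
    have : 0 < 1 / (2 * T ^ 2) := by positivity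
    linarith
  have h := integral_cexp_quadratic hb (I * (1 / (T : ℂ) ^ 2 + v)) (1 / (2 * (T : ℂ) ^ 2) + v)
  have e : ∀ y : ℝ, EE T v y = cexp (-(1 / (2 * (T : ℂ) ^ 2)) * (y : ℂ) ^ 2 +
      I * (1 / (T : ℂ) ^ 2 + v) * y + (1 / (2 * (T : ℂ) ^ 2) + v)) := by
    intro y
    unfold EE
    rw [mk_one]
    congr 1
    field_simp
    ring_nf
    rw [I_sq]
    ring
  simp only [e]
  rw [h]
  have e2 : (Real.pi / - -(1 / (2 * (T : ℂ) ^ 2))) ^ (1 / 2 : ℂ) =
      ((T * Real.sqrt (2 * Real.pi) : ℝ) : ℂ) := by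
    have e3 : (Real.pi / - -(1 / (2 * (T : ℂ) ^ 2)) : ℂ) = ((2 * Real.pi * T ^ 2 : ℝ) : ℂ) := by
      push_cast
      field_simp
    have e4 : (1 / 2 : ℂ) = ((1 / 2 : ℝ) : ℂ) := by push_cast; rfl
    rw [e3, e4, ← ofReal_cpow (by positivity), ← Real.sqrt_eq_rpow,
      Real.sqrt_mul (by positivity), Real.sqrt_sq hT.le, mul_comm]
  have e5 : (1 / (2 * (T : ℂ) ^ 2) + v) - (I * (1 / (T : ℂ) ^ 2 + v)) ^ 2 /
      (4 * -(1 / (2 * (T : ℂ) ^ 2))) = ((-(T ^ 2 * v ^ 2 / 2) : ℝ) : ℂ) := by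
    push_cast
    rw [mul_pow, I_sq]
    field_simp
    ring
  rw [e2, e5, ← ofReal_exp, ← ofReal_mul]

lemma EE_cont (T u : ℝ) : Continuous (EE T u) := by
  unfold EE
  have h := mk_cont 1
  fun_prop

lemma EE_norm (T u y : ℝ) : ‖EE T u y‖ = Real.exp (1 / (2 * T ^ 2) + u) *
    Real.exp (-(y ^ 2 / (2 * T ^ 2))) := by
  unfold EE
  rw [Complex.norm_exp, ← Real.exp_add]
  congr 1
  have : ((2 : ℂ) * (T : ℂ) ^ 2) = ((2 * T ^ 2 : ℝ) : ℂ) := by push_cast; ring
  rw [this, add_re, Complex.div_ofReal_re, re_mul_ofReal]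
  simp only [pow_two, mul_re]
  ring

lemma EE_int {T : ℝ} (hT : 0 < T) (u : ℝ) : Integrable (EE T u) := by
  refine ((gauss_int hT).const_mul (Real.exp (1 / (2 * T ^ 2) + u))).mono'
    (EE_cont T u).aestronglyMeasurable (Eventually.of_forall fun y => (EE_norm T u y).le)

/-- one prime power -/
lemma term_val {T : ℝ} (hT : 0 < T) (u : ℝ) (n : ℕ) :
    ∫ y : ℝ, LSeries.term (fun n => (vonMangoldt n : ℂ)) ⟨3 / 2, y⟩ n * EE T u y =
      ((T * Real.sqrt (2 * Real.pi) * (vonMangoldt n * (Real.sqrt n)⁻¹ *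
        Real.exp (-(u - Real.log n) ^ 2 / (2 * (1 / T ^ 2)))) : ℝ) : ℂ) := by
  rcases Nat.eq_zero_or_pos n with h0 | h0
  · subst h0
    simp
  have hn : (0 : ℝ) < n := by exact_mod_cast h0
  have hnc : (n : ℂ) ≠ 0 := by exact_mod_cast h0.ne'
  have e1 : ∀ y : ℝ, LSeries.term (fun n => (vonMangoldt n : ℂ)) ⟨3 / 2, y⟩ n * EE T u y =
      ((vonMangoldt n * (Real.sqrt n)⁻¹ : ℝ) : ℂ) * EE T (u - Real.log n) y := by
    intro y
    rw [LSeries.term_of_ne_zero h0.ne']
    have hs : (Real.sqrt n)⁻¹ = Real.exp (-(Real.log n / 2)) := by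
      rw [Real.exp_neg, ← Real.log_sqrt hn.le, Real.exp_log (Real.sqrt_pos.2 hn)]
    have hc : (n : ℂ) ^ (⟨3 / 2, y⟩ : ℂ) = cexp ((Real.log n : ℂ) * ⟨3 / 2, y⟩) := by
      rw [cpow_def_of_ne_zero hnc, ← ofReal_natCast, ← ofReal_log hn.le]
    rw [hc, hs, div_eq_mul_inv, ← Complex.exp_neg]
    unfold EE
    push_cast
    rw [mul_assoc, mul_assoc, ← Complex.exp_add, ← Complex.exp_add]
    congr 2
    have e3 : (⟨3 / 2, y⟩ : ℂ) = 1 / 2 + ⟨1, y⟩ := by
      apply Complex.ext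
      · simp
        norm_num
      · simp
    rw [e3]
    ring
  simp only [e1]
  rw [integral_const_mul, EE_int_val hT, ← ofReal_mul]
  congr 1
  have e4 : -(u - Real.log n) ^ 2 / (2 * (1 / T ^ 2)) = -(T ^ 2 * (u - Real.log n) ^ 2 / 2) := by
    field_simp
  rw [e4]
  ring

lemma Zp_eq (y : ℝ) : Zp y = ∑' n, LSeries.term (fun n => (vonMangoldt n : ℂ)) ⟨3 / 2, y⟩ n := by
  have hs : 1 < (⟨3 / 2, y⟩ : ℂ).re := by
    show (1 : ℝ) < 3 / 2
    norm_num
  have h := ArithmeticFunction.LSeries_vonMangoldt_eq_deriv_riemannZeta_div hs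
  unfold Zp
  rw [logDeriv_apply, ← neg_div]
  exact h.symm

lemma term_norm (y : ℝ) (n : ℕ) : ‖LSeries.term (fun n => (vonMangoldt n : ℂ)) ⟨3 / 2, y⟩ n‖ =
    ‖LSeries.term (fun n => (vonMangoldt n : ℂ)) ((3 / 2 : ℝ) : ℂ) n‖ := by
  rw [LSeries.norm_term_eq, LSeries.norm_term_eq, ofReal_re]

lemma sum32 : Summable fun n =>
    ‖LSeries.term (fun n => (vonMangoldt n : ℂ)) ((3 / 2 : ℝ) : ℂ) n‖ :=
  (ArithmeticFunction.LSeriesSummable_vonMangoldt (by
    rw [Complex.ofReal_re]; norm_num)).norm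

lemma term_cont (n : ℕ) : Continuous fun y : ℝ =>
    LSeries.term (fun n => (vonMangoldt n : ℂ)) ⟨3 / 2, y⟩ n := by
  rcases Nat.eq_zero_or_pos n with h0 | h0
  · subst h0
    simp only [LSeries.term_zero]
    exact continuous_const
  · have hnc : (n : ℂ) ≠ 0 := by exact_mod_cast h0.ne'
    simp only [LSeries.term_of_ne_zero h0.ne']
    apply continuous_const.div
    · exact (mk_cont (3 / 2)).const_cpow (Or.inl hnc)
    · intro y
      rw [Ne, cpow_eq_zero_iff]
      exact fun h => hnc h.1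

lemma Zp_le : ∃ D : ℝ, 0 ≤ D ∧ ∀ y, ‖Zp y‖ ≤ D := by
  obtain ⟨D, hD, h⟩ := zld_bound
  refine ⟨D, hD, fun y => ?_⟩
  unfold Zp
  rw [norm_neg]
  exact h _ (by
    show (3 / 2 : ℝ) ≤ 3 / 2
    exact le_rfl)

lemma Zp_cont : Continuous Zp := by
  have h : ∀ y, Zp y = ∑' n, LSeries.term (fun n => (vonMangoldt n : ℂ)) ⟨3 / 2, y⟩ n := Zp_eq
  rw [show Zp = fun y => ∑' n, LSeries.term (fun n => (vonMangoldt n : ℂ)) ⟨3 / 2, y⟩ n from
    funext h]
  exact continuous_tsum term_cont sum32 (fun n y => (term_norm y n).le)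

/-- **the smoothed sum over the primes** -/
lemma WW_eq' {T : ℝ} (hT : 0 < T) (u : ℝ) :
    ∫ y : ℝ, Zp y * EE T u y = ((T * Real.sqrt (2 * Real.pi) * WW T u : ℝ) : ℂ) := by
  have hI : ∀ n : ℕ, Integrable (fun y : ℝ =>
      LSeries.term (fun n => (vonMangoldt n : ℂ)) ⟨3 / 2, y⟩ n * EE T u y) := by
    intro n
    refine ((EE_int hT u).norm.const_mul
      ‖LSeries.term (fun n => (vonMangoldt n : ℂ)) ((3 / 2 : ℝ) : ℂ) n‖).mono'
      ((term_cont n).mul (EE_cont T u)).aestronglyMeasurable (Eventually.of_forall fun y => ?_)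
    rw [norm_mul, term_norm]
  have hS := hasSum_integral_of_summable_integral_norm hI (by
    have e : (fun n : ℕ => ∫ y : ℝ,
        ‖LSeries.term (fun n => (vonMangoldt n : ℂ)) ⟨3 / 2, y⟩ n * EE T u y‖) = fun n =>
        ‖LSeries.term (fun n => (vonMangoldt n : ℂ)) ((3 / 2 : ℝ) : ℂ) n‖ *
          ∫ y : ℝ, ‖EE T u y‖ := by
      funext n
      rw [← integral_const_mul]
      congr 1
      funext y
      rw [norm_mul, term_norm]
    rw [e]
    exact sum32.mul_right _)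
  simp only [term_val hT] at hS
  have e1 : ∫ y : ℝ, ∑' n, LSeries.term (fun n => (vonMangoldt n : ℂ)) ⟨3 / 2, y⟩ n * EE T u y =
      ∫ y : ℝ, Zp y * EE T u y := by
    congr 1
    funext y
    rw [tsum_mul_right, Zp_eq]
  rw [e1] at hS
  have h2 := hS.tsum_eq
  rw [← h2, ← ofReal_tsum, tsum_mul_left]
  rfl

/-- continuity of the average -/
lemma WW_cont {T : ℝ} (hT : 0 < T) : Continuous (WW T) := by
  obtain ⟨D, hD, hZ⟩ := Zp_le
  obtain ⟨V, hV⟩ : ∃ V : ℝ → ℂ, V = fun u : ℝ => ∫ y : ℝ, Zp y * (EE T 0 y * cexp (y * u * I)) :=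
    ⟨_, rfl⟩
  have hVc : Continuous V := by
    rw [hV]
    apply continuous_of_dominated (bound := fun y => D * ‖EE T 0 y‖)
    · intro u
      apply Continuous.aestronglyMeasurable
      have h1 := Zp_cont
      have h2 := EE_cont T 0
      fun_prop
    · intro u
      refine Eventually.of_forall fun y => ?_
      rw [norm_mul, norm_mul, show (y : ℂ) * u * I = ((y * u : ℝ) : ℂ) * I by push_cast; ring,
        Complex.norm_exp_ofReal_mul_I, mul_one]
      exact mul_le_mul_of_nonneg_right (hZ y) (norm_nonneg _)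
    · exact (EE_int hT 0).norm.const_mul D
    · refine Eventually.of_forall fun y => ?_
      fun_prop
  have hk : 0 < T * Real.sqrt (2 * Real.pi) := by
    have := Real.pi_pos
    positivity
  have e : ∀ u, WW T u = (Real.exp u * (V u).re) / (T * Real.sqrt (2 * Real.pi)) := by
    intro u
    have h1 := WW_eq' hT u
    have h2 : ∫ y : ℝ, Zp y * EE T u y = (Real.exp u : ℂ) * V u := by
      rw [hV]
      simp only
      rw [← integral_const_mul]
      congr 1
      funext y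
      have : EE T u y = (Real.exp u : ℂ) * (EE T 0 y * cexp (y * u * I)) := by
        unfold EE
        rw [ofReal_exp, ← Complex.exp_add, ← Complex.exp_add]
        congr 1
        rw [mk_one]
        push_cast
        ring
      rw [this]
      ring
    rw [h2] at h1
    have h3 := congrArg Complex.re h1
    rw [re_ofReal_mul, ofReal_re] at h3
    rw [h3]
    field_simp
  rw [show WW T = fun u => (Real.exp u * (V u).re) / (T * Real.sqrt (2 * Real.pi)) from funext e]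
  have := continuous_re.comp hVc
  exact (Real.continuous_exp.mul this).div_const _

/-- **the primes and the kernel** -/
lemma MM_eq {T : ℝ} (hT : 0 < T) {U : ℝ} (hU : 0 ≤ U) :
    ((MM T U : ℝ) : ℂ) = 1 / (2 * Real.pi) * ∫ y : ℝ, Zp y * kk T U ⟨1, y⟩ := by
  obtain ⟨D, hD, hZ⟩ := Zp_le
  have hpi := Real.pi_pos
  have hsq : Real.sqrt (2 * Real.pi) ^ 2 = 2 * Real.pi := Real.sq_sqrt (by positivity)
  have hs0 : 0 < Real.sqrt (2 * Real.pi) := by positivity
  -- the double integral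
  have e1 : ((MM T U : ℝ) : ℂ) = 1 / (2 * Real.pi) *
      ∫ u in Ioc 0 U, ∫ y : ℝ, (Real.exp (u / 2) : ℂ) * (Zp y * EE T u y) := by
    have h1 : MM T U = 1 / (2 * Real.pi) *
        ∫ u in (0 : ℝ)..U, Real.exp (u / 2) * (T * Real.sqrt (2 * Real.pi) * WW T u) := by
      unfold MM
      have e2 : ∀ u : ℝ, Real.exp (u / 2) * (T * Real.sqrt (2 * Real.pi) * WW T u) =
          (T * Real.sqrt (2 * Real.pi)) * (Real.exp (u / 2) * WW T u) := fun u => by ring
      simp only [e2]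
      rw [intervalIntegral.integral_const_mul, ← mul_assoc]
      congr 1
      field_simp
      rw [hsq]
    rw [h1, intervalIntegral.integral_of_le hU, ofReal_mul, ← integral_complex_ofReal]
    congr 1
    · push_cast
      rfl
    · congr 1
      funext u
      rw [integral_const_mul, WW_eq' hT, ofReal_mul]
  rw [e1]
  congr 1
  -- Fubini
  have hswap := integral_integral_swap (μ := volume.restrict (Ioc 0 U)) (ν := volume)
    (f := fun (u y : ℝ) => (Real.exp (u / 2) : ℂ) * (Zp y * EE T u y)) (by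
      have hg : Integrable (fun p : ℝ × ℝ => (Real.exp (U / 2) * D * Real.exp (1 / (2 * T ^ 2) + U)) *
          Real.exp (-(p.2 ^ 2 / (2 * T ^ 2)))) ((volume.restrict (Ioc 0 U)).prod volume) := by
        exact Integrable.mul_prod (f := fun _ : ℝ => Real.exp (U / 2) * D *
          Real.exp (1 / (2 * T ^ 2) + U)) (integrable_const _) (gauss_int hT)
      refine hg.mono' ?_ ?_
      · apply Continuous.aestronglyMeasurable
        show Continuous fun p : ℝ × ℝ => (Real.exp (p.1 / 2) : ℂ) * (Zp p.2 * EE T p.1 p.2)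
        have h1 : Continuous fun p : ℝ × ℝ => Zp p.2 := Zp_cont.comp continuous_snd
        have h2 : Continuous fun p : ℝ × ℝ => EE T p.1 p.2 := by
          unfold EE
          have h3 : Continuous fun p : ℝ × ℝ => (⟨1, p.2⟩ : ℂ) := (mk_cont 1).comp continuous_snd
          fun_prop
        have h4 : Continuous fun p : ℝ × ℝ => (Real.exp (p.1 / 2) : ℂ) := by fun_prop
        exact h4.mul (h1.mul h2)
      · have hp : (volume.restrict (Ioc 0 U)).prod (volume : Measure ℝ) =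
            ((volume : Measure ℝ).prod (volume : Measure ℝ)).restrict (Ioc 0 U ×ˢ univ) := by
          rw [← Measure.prod_restrict, Measure.restrict_univ]
        rw [hp]
        rw [ae_restrict_iff' (measurableSet_Ioc.prod MeasurableSet.univ)]
        refine Eventually.of_forall fun p hpm => ?_
        obtain ⟨⟨hu0, huU⟩, _⟩ := hpm
        show ‖(Real.exp (p.1 / 2) : ℂ) * (Zp p.2 * EE T p.1 p.2)‖ ≤ _
        rw [norm_mul, norm_mul, Complex.norm_real, Real.norm_eq_abs,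
          abs_of_pos (Real.exp_pos _), EE_norm]
        have b1 : Real.exp (p.1 / 2) ≤ Real.exp (U / 2) := Real.exp_le_exp.2 (by linarith)
        have b2 : Real.exp (1 / (2 * T ^ 2) + p.1) ≤ Real.exp (1 / (2 * T ^ 2) + U) :=
          Real.exp_le_exp.2 (by linarith)
        calc Real.exp (p.1 / 2) * (‖Zp p.2‖ * (Real.exp (1 / (2 * T ^ 2) + p.1) *
              Real.exp (-(p.2 ^ 2 / (2 * T ^ 2)))))
            ≤ Real.exp (U / 2) * (D * (Real.exp (1 / (2 * T ^ 2) + U) *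
              Real.exp (-(p.2 ^ 2 / (2 * T ^ 2))))) := by
              have := hZ p.2
              gcongr
          _ = _ := by ring)
  rw [hswap]
  congr 1
  funext y
  have e3 : ∀ u : ℝ, (Real.exp (u / 2) : ℂ) * (Zp y * EE T u y) =
      (Zp y * cexp ((⟨1, y⟩ : ℂ) ^ 2 / (2 * T ^ 2))) * cexp ((1 / 2 + (⟨1, y⟩ : ℂ)) * u) := by
    intro u
    unfold EE
    rw [ofReal_exp, Complex.exp_add]
    have : cexp ((1 / 2 + (⟨1, y⟩ : ℂ)) * u) = cexp ((u / 2 : ℝ) : ℂ) * cexp ((⟨1, y⟩ : ℂ) * u) := by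
      rw [← Complex.exp_add]
      congr 1
      push_cast
      ring
    rw [this]
    ring
  have hne : (1 / 2 + (⟨1, y⟩ : ℂ)) ≠ 0 := by
    intro h
    have := congrArg Complex.re h
    rw [add_re] at this
    norm_num at this
  rw [← intervalIntegral.integral_of_le hU]
  simp only [e3]
  rw [intervalIntegral.integral_const_mul, integral_exp_mul_complex hne, kk_eq T U hne]
  simp only [ofReal_zero, mul_zero, Complex.exp_zero]
  ring

end Pool.Agent.H862.VK
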