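import Pool.Agent.H862.VK.Sum
import Pool.Agent.H862.VK.Pri

/-!
# Von Koch's theorem

Under the Riemann hypothesis `ψ(x) - x = O(√x log² x)`.
-/

set_option autoImplicit false

open Complex MeasureTheory Filter Topology Set

namespace Pool.Agent.H862.VK

open H370 Pool.Agent.NH13 Pool.Agent.NH13.LV.Ps

lemma Gz_diff {z : ℂ} (hz : 0 ≤ z.re) : DifferentiableAt ℂ Gz z := by
  have hre : 0 < (1 / 2 + z).re := by
    rw [half_re]
    linarith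
  have hs0 : (1 / 2 + z : ℂ) ≠ 0 := by
    intro h
    rw [h, zero_re] at hre
    exact lt_irrefl _ hre
  have hw : 0 < ((1 / 2 + z) / 2).re := by
    rw [show (2 : ℂ) = ((2 : ℝ) : ℂ) by norm_num, Complex.div_ofReal_re,
      show ((2 : ℝ) : ℂ) = 2 by norm_num]
    linarith
  have hG : DifferentiableAt ℂ (logDeriv Gamma) ((1 / 2 + z) / 2) := by
    have hopen : IsOpen {s : ℂ | 0 < s.re} := isOpen_lt continuous_const continuous_re
    have h1 : DifferentiableOn ℂ Gamma {s : ℂ | 0 < s.re} := fun s hs =>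
      (differentiableAt_Gamma s (UV.LDg.ne_neg_nat hs)).differentiableWithinAt
    have h2 := (h1.analyticOnNhd hopen) _ hw
    exact h2.deriv.differentiableAt.div h2.differentiableAt (Gamma_ne_zero (UV.LDg.ne_neg_nat hw))
  unfold Gz
  have h3 : DifferentiableAt ℂ (fun z : ℂ => logDeriv Gamma ((1 / 2 + z) / 2)) z :=
    DifferentiableAt.comp (g := logDeriv Gamma) (f := fun z : ℂ => (1 / 2 + z) / 2) z hG
      (by fun_prop)
  have h4 : DifferentiableAt ℂ (fun z : ℂ => 1 / (1 / 2 + z)) z := by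
    apply DifferentiableAt.div (by fun_prop) (by fun_prop) hs0
  exact h4.add ((differentiableAt_const _).add (h3.const_mul _))

lemma log_two_le (y : ℝ) : Real.log (3 + |y|) ≤ 4 * (1 + y ^ 2) := by
  refine (log3_le y).trans ?_
  rw [← sq_abs y]
  nlinarith [sq_nonneg (|y| - 1), abs_nonneg y]

lemma one_le_log3 (y : ℝ) : 1 ≤ Real.log (3 + |y|) := by
  have h0 := abs_nonneg y
  rw [Real.le_log_iff_exp_le (by positivity)]
  have := Real.exp_one_lt_d9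
  linarith

/-- the bound for the averages -/
theorem t_HM (hRH : RiemannHypothesis) : HM := by
  obtain ⟨C1, hC1, hB⟩ := B_part hRH
  obtain ⟨C2, hC2, hG⟩ := Gz_le
  have hpi := Real.pi_pos
  refine ⟨(400 * C2 + 800 + C1), 10, by positivity, le_rfl, fun T hT => ⟨WW_cont (by linarith),
    fun U hU _ => ?_⟩⟩
  have hT0 : 0 < T := by linarith
  have hG' : ∀ z : ℂ, 0 ≤ z.re → z.re ≤ 1 → ‖Gz z‖ ≤ C2 * Real.log (3 + |z.im|) := by
    intro z h0 h1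
    refine (hG z h0).trans (mul_le_mul_of_nonneg_left ?_ hC2.le)
    have := log_pt z.re z.im (by rw [abs_of_nonneg h0]; exact h1)
    exact this
  have hG4 : ∀ z : ℂ, 0 ≤ z.re → z.re ≤ 1 → ‖Gz z‖ ≤ C2 * 4 * (1 + z.im ^ 2) := by
    intro z h0 h1
    refine (hG' z h0 h1).trans ?_
    have := mul_le_mul_of_nonneg_left (log_two_le z.im) hC2.le
    linarith
  -- the three parts
  have hZ : ∀ y : ℝ, Zp y = Gz ⟨1, y⟩ + ((⟨1, y⟩ : ℂ) - ((1 / 2 : ℝ) : ℂ))⁻¹ - BB ⟨1, y⟩ := by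
    intro y
    have h := logDeriv_Yz (z := ⟨1, y⟩) (by norm_num)
    have e : (1 / 2 + (⟨1, y⟩ : ℂ)) = ⟨3 / 2, y⟩ := by
      apply Complex.ext
      · simp
        norm_num
      · simp
    rw [e] at h
    unfold Zp BB
    rw [h]
    push_cast
    ring
  have hcG : Continuous (fun y : ℝ => Gz ⟨1, y⟩) := by
    rw [continuous_iff_continuousAt]
    intro y
    have h1 : ContinuousAt Gz (⟨1, y⟩ : ℂ) := (Gz_diff (z := ⟨1, y⟩) (by norm_num)).continuousAt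
    exact ContinuousAt.comp (f := fun y : ℝ => (⟨1, y⟩ : ℂ)) h1 (mk_cont 1).continuousAt
  have hi1 : Integrable (fun y : ℝ => Gz ⟨1, y⟩ * kk T U ⟨1, y⟩) :=
    kk_int2 hT0 (by norm_num) le_rfl hcG (fun y => hG4 ⟨1, y⟩ (by norm_num) le_rfl)
  have hp1 : (1 : ℝ) ≠ (((1 / 2 : ℝ) : ℂ)).re := by
    rw [ofReal_re]
    norm_num
  have hp0 : (0 : ℝ) ≠ (((1 / 2 : ℝ) : ℂ)).re := by
    rw [ofReal_re]
    norm_num
  have hi2 : Integrable (fun y : ℝ => ((⟨1, y⟩ : ℂ) - ((1 / 2 : ℝ) : ℂ))⁻¹ * kk T U ⟨1, y⟩) :=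
    kk_int hT0 (by norm_num) le_rfl (inv_cont hp1) (inv_le' hp1)
  have hi3 : Integrable (fun y : ℝ => BB ⟨1, y⟩ * kk T U ⟨1, y⟩) := by
    obtain ⟨C, hC, hb⟩ := Yz_line hRH 1 one_pos
    apply kk_int2 hT0 (by norm_num) le_rfl (BB_cont hRH one_ne_zero) (C := C * 4)
    intro y
    refine (hb ⟨1, y⟩ (by simp)).trans ?_
    have h5 := (log_pt 1 y (by simp)).trans (log_two_le y)
    have := mul_le_mul_of_nonneg_left h5 hC.le
    linarith
  have hsplit : ∫ y : ℝ, Zp y * kk T U ⟨1, y⟩ = (∫ y : ℝ, Gz ⟨1, y⟩ * kk T U ⟨1, y⟩) +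
      (∫ y : ℝ, ((⟨1, y⟩ : ℂ) - ((1 / 2 : ℝ) : ℂ))⁻¹ * kk T U ⟨1, y⟩) -
      ∫ y : ℝ, BB ⟨1, y⟩ * kk T U ⟨1, y⟩ := by
    have hi12 : Integrable (fun y : ℝ => Gz ⟨1, y⟩ * kk T U ⟨1, y⟩ +
        ((⟨1, y⟩ : ℂ) - ((1 / 2 : ℝ) : ℂ))⁻¹ * kk T U ⟨1, y⟩) := hi1.add hi2
    rw [← integral_add hi1 hi2, ← integral_sub hi12 hi3]
    congr 1
    funext y
    rw [hZ]
    ring
  have hpole := one_pole (T := T) (U := U) hT0 (a := 0) (b := 1) (p := ((1 / 2 : ℝ) : ℂ))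
    (by norm_num) le_rfl (by rw [ofReal_re]; norm_num) (by rw [ofReal_re]; norm_num)
  have hshift := shiftG (T := T) (U := U) hT0 (G := Gz) (C := C2 * 4)
    (fun z h0 _ => Gz_diff h0) hG4
  have hkk : kk T U ((1 / 2 : ℝ) : ℂ) =
      ((Real.exp (1 / (8 * T ^ 2)) * (Real.exp U - 1) : ℝ) : ℂ) := by
    have hne : (1 / 2 + ((1 / 2 : ℝ) : ℂ)) ≠ 0 := by
      push_cast
      norm_num
    rw [kk_eq T U hne]
    have hTc : (T : ℂ) ≠ 0 := ofReal_ne_zero.2 hT0.ne'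
    have e1 : (((1 / 2 : ℝ) : ℂ)) ^ 2 / (2 * (T : ℂ) ^ 2) = ((1 / (8 * T ^ 2) : ℝ) : ℂ) := by
      push_cast
      field_simp
      norm_num
    have e2 : (1 / 2 + ((1 / 2 : ℝ) : ℂ)) = 1 := by
      push_cast
      norm_num
    rw [e1, e2, one_mul, div_one]
    push_cast
    rfl
  have hn1 := line_le (T := T) (U := U) hT hU 0 (by norm_num) le_rfl (f := fun y => Gz ⟨0, y⟩)
    hC2.le (fun y => hG' ⟨0, y⟩ le_rfl (by norm_num))
  have hn2 := line_le (T := T) (U := U) hT hU 0 (by norm_num) le_rfl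
    (f := fun y => ((⟨0, y⟩ : ℂ) - ((1 / 2 : ℝ) : ℂ))⁻¹) (C := 2) (by norm_num) (fun y => by
      refine (inv_le' hp0 y).trans ?_
      have e : |(0 : ℝ) - (((1 / 2 : ℝ) : ℂ)).re|⁻¹ = 2 := by
        rw [ofReal_re, zero_sub, abs_neg, abs_of_pos (by norm_num)]
        norm_num
      rw [e]
      have := one_le_log3 y
      linarith)
  have hn3 := hB T U hT hU
  have hMM := MM_eq (T := T) hT0 hU
  obtain ⟨R, hR⟩ : ∃ R : ℂ, R = (∫ y : ℝ, Gz ⟨0, y⟩ * kk T U ⟨0, y⟩) +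
      (∫ y : ℝ, ((⟨0, y⟩ : ℂ) - ((1 / 2 : ℝ) : ℂ))⁻¹ * kk T U ⟨0, y⟩) -
      ∫ y : ℝ, BB ⟨1, y⟩ * kk T U ⟨1, y⟩ := ⟨_, rfl⟩
  have hRn : ‖R‖ ≤ (400 * C2 + 800 + C1) * ((Real.exp (U / 2) + 1) * Real.log T ^ 2) := by
    rw [hR]
    calc _ ≤ ‖∫ y : ℝ, Gz ⟨0, y⟩ * kk T U ⟨0, y⟩‖ +
          ‖∫ y : ℝ, ((⟨0, y⟩ : ℂ) - ((1 / 2 : ℝ) : ℂ))⁻¹ * kk T U ⟨0, y⟩‖ +
          ‖∫ y : ℝ, BB ⟨1, y⟩ * kk T U ⟨1, y⟩‖ :=
          (norm_sub_le _ _).trans (by gcongr; exact norm_add_le _ _)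
      _ ≤ 400 * C2 * ((Real.exp (U / 2) + 1) * Real.log T ^ 2) +
          400 * 2 * ((Real.exp (U / 2) + 1) * Real.log T ^ 2) +
          C1 * ((Real.exp (U / 2) + 1) * Real.log T ^ 2) := by gcongr
      _ = _ := by ring
  have hdiff : ((MM T U - Real.exp (1 / (8 * T ^ 2)) * (Real.exp U - 1) : ℝ) : ℂ) =
      1 / (2 * Real.pi) * R := by
    have hpole' : (∫ y : ℝ, ((⟨1, y⟩ : ℂ) - ((1 / 2 : ℝ) : ℂ))⁻¹ * kk T U ⟨1, y⟩) =
        2 * Real.pi * kk T U ((1 / 2 : ℝ) : ℂ) +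
          ∫ y : ℝ, ((⟨0, y⟩ : ℂ) - ((1 / 2 : ℝ) : ℂ))⁻¹ * kk T U ⟨0, y⟩ := by
      rw [← hpole]
      ring
    rw [ofReal_sub, hMM, hsplit, hpole', hshift, hR, hkk]
    have hpc : (Real.pi : ℂ) ≠ 0 := ofReal_ne_zero.2 hpi.ne'
    field_simp
    ring
  have habs : |MM T U - Real.exp (1 / (8 * T ^ 2)) * (Real.exp U - 1)| = 1 / (2 * Real.pi) * ‖R‖ := by
    have h := congrArg norm hdiff
    rw [Complex.norm_real, Real.norm_eq_abs, norm_mul, norm_div, norm_mul, norm_one,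
      Complex.norm_ofNat, Complex.norm_real, Real.norm_eq_abs, abs_of_pos hpi] at h
    exact h
  rw [habs]
  have h1 : 1 / (2 * Real.pi) ≤ 1 := by
    rw [div_le_one (by positivity)]
    linarith [Real.pi_gt_three]
  calc 1 / (2 * Real.pi) * ‖R‖ ≤ 1 * ‖R‖ := mul_le_mul_of_nonneg_right h1 (norm_nonneg _)
    _ ≤ (400 * C2 + 800 + C1) * ((Real.exp (U / 2) + 1) * Real.log T ^ 2) := by
        rw [one_mul]
        exact hRn
    _ ≤ (400 * C2 + 800 + C1) * ((Real.exp (U / 2) + T) * Real.log T ^ 2) := by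
        gcongr
        linarith

/-- **von Koch's theorem** -/
theorem von_koch (hRH : RiemannHypothesis) : Pool.Agent.NH13.UV.PsiB :=
  psiB_of (t_HM hRH)

end Pool.Agent.H862.VK
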