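import Pool.Agent.H862.VK.Est
import Pool.Agent.H862.VK.Zt

/-!
# The zeros
-/

set_option autoImplicit false

open Complex MeasureTheory Filter Topology Set
open scoped ComplexConjugate

namespace Pool.Agent.H862.VK

open H370 Pool.Agent.NH13 Pool.Agent.NH13.UV

/-- the zeros -/
abbrev ZZ := {a : ℂ // Yz a = 0}

/-- the multiplicities -/
noncomputable abbrev mz (a : ZZ) : ℕ := analyticOrderNatAt Yz (a : ℂ)

/-- the logarithmic derivative -/
noncomputable abbrev BB (z : ℂ) : ℂ := logDeriv Yz z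

lemma ne_off (hRH : RiemannHypothesis) {z : ℂ} (hz : z.re ≠ 0) : Yz z ≠ 0 :=
  fun h => hz (Yz_zero hRH h)

lemma pf (hRH : RiemannHypothesis) {z w : ℂ} (hz : z.re ≠ 0) (hw : w.re ≠ 0) :
    HasSum (fun a : ZZ => (mz a : ℂ) * (1 / (z - (a : ℂ)) - 1 / (w - (a : ℂ)))) (BB z - BB w) :=
  VP.t_PFC Yz Yz_diff Yz_sym Yz_gr (fun s hs => by
    rw [Yz_zero hRH hs, abs_zero]
    norm_num) z w (ne_off hRH hz) (ne_off hRH hw)

lemma mz_pos (a : ZZ) : 0 < mz a := by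
  have h2 : analyticOrderAt Yz (a : ℂ) ≠ 0 := by
    rw [(Yz_diff.analyticAt (a : ℂ)).analyticOrderAt_ne_zero]
    exact a.2
  have h3 : analyticOrderAt Yz (a : ℂ) ≠ ⊤ := by
    intro h
    rw [analyticOrderAt_eq_top] at h
    have han : AnalyticOnNhd ℂ Yz Set.univ := fun z _ => Yz_diff.analyticAt z
    exact Yz_ne (z := 1) (by norm_num) (han.eqOn_zero_of_preconnected_of_eventuallyEq_zero
      isPreconnected_univ (Set.mem_univ (a : ℂ)) h (Set.mem_univ 1))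
  rw [Nat.pos_iff_ne_zero]
  intro h
  unfold mz analyticOrderNatAt at h
  rcases (ENat.toNat_eq_zero).1 h with h | h
  · exact h2 h
  · exact h3 h

lemma zre (hRH : RiemannHypothesis) (a : ZZ) : (a : ℂ).re = 0 := Yz_zero hRH a.2

/-- the sum of the Poisson kernels -/
lemma pos_sum (hRH : RiemannHypothesis) (y : ℝ) :
    HasSum (fun a : ZZ => (mz a : ℝ) * (1 / (1 + (y - (a : ℂ).im) ^ 2))) (BB ⟨1, y⟩).re := by
  have h := pf hRH (z := ⟨1, y⟩) (w := ⟨-1, y⟩) (by norm_num) (by norm_num)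
  have e1 : BB ⟨-1, y⟩ = -(conj (BB ⟨1, y⟩)) := by
    have h2 := yh.logDeriv_rf Yz_diff Yz_sym (⟨1, y⟩ : ℂ)
    have e : -(conj (⟨1, y⟩ : ℂ)) = ⟨-1, y⟩ := by
      apply Complex.ext <;> simp
    rw [e] at h2
    exact h2
  rw [e1] at h
  have h3 := Complex.reCLM.hasSum h
  have h4 := h3.div_const 2
  have e2 : Complex.reCLM (BB ⟨1, y⟩ - -(conj (BB ⟨1, y⟩))) / 2 = (BB ⟨1, y⟩).re := by
    rw [Complex.reCLM_apply, Complex.sub_re, Complex.neg_re, Complex.conj_re]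
    ring
  rw [e2] at h4
  refine h4.congr_fun fun a => ?_
  rw [Complex.reCLM_apply]
  have h9 : ((mz a : ℕ) : ℂ) = (((mz a : ℕ) : ℝ) : ℂ) := by push_cast; rfl
  rw [h9, Complex.re_ofReal_mul, Complex.sub_re, mul_div_assoc]
  congr 1
  have ha := zre hRH a
  have hs : ∀ x : ℝ, (1 / ((⟨x, y⟩ : ℂ) - (a : ℂ))).re = x / (x ^ 2 + (y - (a : ℂ).im) ^ 2) := by
    intro x
    rw [one_div, Complex.inv_re, Complex.normSq_apply, Complex.sub_re, Complex.sub_im, ha, sub_zero]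
    simp only
    congr 1
    ring
  rw [hs, hs]
  have : 0 < 1 + (y - (a : ℂ).im) ^ 2 := by positivity
  field_simp
  ring

instance zz_countable [Fact RiemannHypothesis] : Countable ZZ := by
  have hRH : RiemannHypothesis := Fact.out
  have h := (pos_sum hRH 0).summable.countable_support
  have e : Function.support (fun a : ZZ => (mz a : ℝ) * (1 / (1 + (0 - (a : ℂ).im) ^ 2))) =
      Set.univ := by
    ext a
    simp only [Function.mem_support, Set.mem_univ, iff_true]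
    have h1 : (0 : ℝ) < mz a := by exact_mod_cast mz_pos a
    positivity
  rw [e] at h
  exact Set.countable_univ_iff.1 h

/-- the weight of a zero -/
noncomputable def wz (T : ℝ) (a : ℂ) : ℝ := Real.exp (-(a.im ^ 2 / (2 * T ^ 2))) / ‖1 / 2 + a‖

lemma wz_nonneg (T : ℝ) (a : ℂ) : 0 ≤ wz T a := by
  unfold wz
  positivity

/-- comparison of the weights -/
lemma wz_le {T : ℝ} (hT : 1 ≤ T) {a : ℂ} (ha : a.re = 0) {t : ℝ} (ht : |t - a.im| ≤ 1) :
    wz T a ≤ 20 * (Real.exp (-(t ^ 2 / (4 * T ^ 2))) / (1 + |t|) *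
      (1 / (1 + (t - a.im) ^ 2))) := by
  have h0 := abs_nonneg a.im
  have ht0 := abs_nonneg t
  have h1 : (2 + |a.im|) / 5 ≤ ‖1 / 2 + a‖ := by
    rcases le_or_gt |a.im| (1 / 2) with h | h
    · refine le_trans ?_ (re_le_norm _)
      rw [add_re, ha]
      norm_num
      linarith
    · refine le_trans ?_ (abs_im_le_norm _)
      rw [add_im]
      norm_num
      linarith
  have h2 : |t| ≤ 1 + |a.im| := by
    have h3 := abs_sub_abs_le_abs_sub t a.im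
    linarith
  have h4 : (1 + |t|) / 5 ≤ ‖1 / 2 + a‖ := by
    refine le_trans ?_ h1
    linarith
  have h5 : Real.exp (-(a.im ^ 2 / (2 * T ^ 2))) ≤ 2 * Real.exp (-(t ^ 2 / (4 * T ^ 2))) := by
    have h6 : -(a.im ^ 2 / (2 * T ^ 2)) ≤ 1 / 2 + -(t ^ 2 / (4 * T ^ 2)) := by
      have h7 : t ^ 2 ≤ 2 * a.im ^ 2 + 2 := by
        have h8 : t ^ 2 = ((t - a.im) + a.im) ^ 2 := by ring
        have h9 : (t - a.im) ^ 2 ≤ 1 := by
          rw [← sq_abs]
          have := abs_nonneg (t - a.im)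
          nlinarith
        nlinarith [sq_nonneg ((t - a.im) - a.im)]
      have hTT : 1 ≤ T ^ 2 := one_le_pow₀ hT
      have h10 : t ^ 2 / (4 * T ^ 2) ≤ a.im ^ 2 / (2 * T ^ 2) + 1 / 2 := by
        rw [div_add' _ _ _ (by positivity), div_le_div_iff₀ (by positivity) (by positivity)]
        nlinarith [mul_le_mul_of_nonneg_right h7 (show 0 ≤ T ^ 2 by positivity)]
      linarith
    have h11 : Real.exp (1 / 2 : ℝ) ≤ 2 := by
      have h3 := Real.exp_bound_div_one_sub_of_interval' (x := 1 / 2) (by norm_num) (by norm_num)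
      have : (1 : ℝ) / (1 - 1 / 2) ≤ 2 := by norm_num
      linarith
    calc _ ≤ Real.exp (1 / 2 + -(t ^ 2 / (4 * T ^ 2))) := Real.exp_le_exp.2 h6
      _ = Real.exp (1 / 2) * Real.exp (-(t ^ 2 / (4 * T ^ 2))) := Real.exp_add _ _
      _ ≤ _ := mul_le_mul_of_nonneg_right h11 (Real.exp_pos _).le
  have h12 : 1 / 2 ≤ 1 / (1 + (t - a.im) ^ 2) := by
    have h9 : (t - a.im) ^ 2 ≤ 1 := by
      rw [← sq_abs]
      have := abs_nonneg (t - a.im)
      nlinarith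
    apply one_div_le_one_div_of_le (by positivity)
    linarith
  have h13 : wz T a ≤ 2 * Real.exp (-(t ^ 2 / (4 * T ^ 2))) / ((1 + |t|) / 5) := by
    unfold wz
    gcongr
  refine h13.trans ?_
  have e : 2 * Real.exp (-(t ^ 2 / (4 * T ^ 2))) / ((1 + |t|) / 5) =
      20 * (Real.exp (-(t ^ 2 / (4 * T ^ 2))) / (1 + |t|) * (1 / 2)) := by
    field_simp
    ring
  rw [e]
  gcongr

lemma log_pt (x y : ℝ) (hx : |x| ≤ 1) : Real.log (2 + ‖(⟨x, y⟩ : ℂ)‖) ≤ Real.log (3 + |y|) := by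
  apply Real.log_le_log (by have := norm_nonneg (⟨x, y⟩ : ℂ); positivity)
  have h := norm_le_abs_re_add_abs_im (⟨x, y⟩ : ℂ)
  simp only at h
  linarith

/-- the weighted number of zeros -/
lemma zsum (hRH : RiemannHypothesis) : ∃ C : ℝ, 0 < C ∧ ∀ T : ℝ, 10 ≤ T → ∀ S : Finset ZZ,
    ∑ a ∈ S, (mz a : ℝ) * wz T a ≤ C * Real.log T ^ 2 := by
  obtain ⟨C, hC, hB⟩ := Yz_line hRH 1 one_pos
  refine ⟨400 * C, by positivity, fun T hT S => ?_⟩
  -- pointwise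
  have key : ∀ t : ℝ, ∑ a ∈ S, (mz a : ℝ) *
      (Icc ((a : ℂ).im - 1) ((a : ℂ).im + 1)).indicator (fun _ => wz T a) t ≤ 20 * C * hh T t := by
    intro t
    have ht0 := abs_nonneg t
    have h1 : ∑ a ∈ S, (mz a : ℝ) * (1 / (1 + (t - (a : ℂ).im) ^ 2)) ≤ (BB ⟨1, t⟩).re :=
      sum_le_hasSum S (fun a _ => by positivity) (pos_sum hRH t)
    have h2 : (BB ⟨1, t⟩).re ≤ C * Real.log (3 + |t|) := by
      refine (re_le_norm _).trans ((hB ⟨1, t⟩ (by simp)).trans ?_)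
      exact mul_le_mul_of_nonneg_left (log_pt 1 t (by simp)) hC.le
    have h3 : ∀ a ∈ S, (mz a : ℝ) *
        (Icc ((a : ℂ).im - 1) ((a : ℂ).im + 1)).indicator (fun _ => wz T a) t ≤
        20 * (Real.exp (-(t ^ 2 / (4 * T ^ 2))) / (1 + |t|)) *
          ((mz a : ℝ) * (1 / (1 + (t - (a : ℂ).im) ^ 2))) := by
      intro a _
      by_cases ht : t ∈ Icc ((a : ℂ).im - 1) ((a : ℂ).im + 1)
      · rw [indicator_of_mem ht]
        have h4 := wz_le (T := T) (by linarith) (zre hRH a) (t := t) (by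
          rw [abs_le]
          constructor <;> linarith [ht.1, ht.2])
        calc _ ≤ (mz a : ℝ) * (20 * (Real.exp (-(t ^ 2 / (4 * T ^ 2))) / (1 + |t|) *
              (1 / (1 + (t - (a : ℂ).im) ^ 2)))) := mul_le_mul_of_nonneg_left h4 (Nat.cast_nonneg _)
          _ = _ := by ring
      · rw [indicator_of_notMem ht, mul_zero]
        positivity
    calc _ ≤ ∑ a ∈ S, 20 * (Real.exp (-(t ^ 2 / (4 * T ^ 2))) / (1 + |t|)) *
          ((mz a : ℝ) * (1 / (1 + (t - (a : ℂ).im) ^ 2))) := Finset.sum_le_sum h3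
      _ = 20 * (Real.exp (-(t ^ 2 / (4 * T ^ 2))) / (1 + |t|)) *
          ∑ a ∈ S, (mz a : ℝ) * (1 / (1 + (t - (a : ℂ).im) ^ 2)) := by rw [Finset.mul_sum]
      _ ≤ 20 * (Real.exp (-(t ^ 2 / (4 * T ^ 2))) / (1 + |t|)) * (C * Real.log (3 + |t|)) :=
          mul_le_mul_of_nonneg_left (h1.trans h2) (by positivity)
      _ = _ := by
          unfold hh
          ring
  have hI : ∀ a ∈ S, Integrable (fun t : ℝ => (mz a : ℝ) *
      (Icc ((a : ℂ).im - 1) ((a : ℂ).im + 1)).indicator (fun _ => wz T a) t) := by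
    intro a _
    apply Integrable.const_mul
    rw [integrable_indicator_iff measurableSet_Icc]
    exact integrableOn_const (by simp)
  have h5 := integral_mono (integrable_finsetSum S hI)
    ((hh_int (T := T) (by linarith)).const_mul (20 * C)) key
  rw [integral_finsetSum S hI, integral_const_mul] at h5
  have h6 : ∀ a ∈ S, ∫ t : ℝ, (mz a : ℝ) *
      (Icc ((a : ℂ).im - 1) ((a : ℂ).im + 1)).indicator (fun _ => wz T a) t =
      2 * ((mz a : ℝ) * wz T a) := by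
    intro a _
    rw [integral_const_mul, integral_indicator_const _ measurableSet_Icc]
    simp only [measureReal_def, Real.volume_Icc, smul_eq_mul]
    rw [show (a : ℂ).im + 1 - ((a : ℂ).im - 1) = 2 by ring]
    rw [ENNReal.toReal_ofReal (by norm_num)]
    ring
  rw [Finset.sum_congr rfl h6, ← Finset.mul_sum] at h5
  have h7 := mul_le_mul_of_nonneg_left (hh_mass hT) (show 0 ≤ 20 * C by positivity)
  linarith

/-- the kernel at a zero -/
lemma kk_zero_le (hRH : RiemannHypothesis) {T U : ℝ} (a : ZZ) :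
    ‖kk T U (a : ℂ)‖ ≤ (Real.exp (U / 2) + 1) * wz T a := by
  have ha := zre hRH a
  have e : (a : ℂ) = ⟨0, (a : ℂ).im⟩ := by
    apply Complex.ext
    · exact ha
    · rfl
  have h := kk_norm T U 0 (a : ℂ).im (by norm_num)
  rw [← e] at h
  refine h.trans (le_of_eq ?_)
  unfold wz
  rw [show ((0 : ℝ) ^ 2 - (a : ℂ).im ^ 2) / (2 * T ^ 2) = -((a : ℂ).im ^ 2 / (2 * T ^ 2)) by ring,
    show (1 / 2 + (0 : ℝ)) * U = U / 2 by ring]
  ring

/-- the logarithmic derivative is continuous on the lines off the critical line -/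
lemma BB_cont (hRH : RiemannHypothesis) {x : ℝ} (hx : x ≠ 0) :
    Continuous (fun y : ℝ => BB ⟨x, y⟩) := by
  rw [continuous_iff_continuousAt]
  intro y
  have hne : Yz ⟨x, y⟩ ≠ 0 := ne_off hRH hx
  have h1 : ContinuousAt BB (⟨x, y⟩ : ℂ) := by
    have h4 : DifferentiableAt ℂ (deriv Yz) (⟨x, y⟩ : ℂ) :=
      (Yz_diff.analyticAt _).deriv.differentiableAt
    exact (h4.div (Yz_diff _) hne).continuousAt
  exact ContinuousAt.comp (f := fun y : ℝ => (⟨x, y⟩ : ℂ)) h1 (mk_cont x).continuousAt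

/-- the terms on a line -/
lemma term_le {x : ℝ} (hx1 : x ≤ 1) (hx0 : -(1 / 4) ≤ x) (hx : 1 / 4 ≤ |x|) {a : ℂ}
    (ha : a.re = 0) (y : ℝ) : ‖((⟨x, y⟩ : ℂ) - a)⁻¹ - (1 - a)⁻¹‖ ≤
      40 * (1 + y ^ 2) * (1 / (1 + (0 - a.im) ^ 2)) := by
  obtain ⟨z, hz⟩ : ∃ z : ℂ, z = ⟨x, y⟩ := ⟨_, rfl⟩
  rw [← hz]
  have n1 : 1 / 4 ≤ ‖z - a‖ := by
    refine hx.trans ?_
    have := abs_re_le_norm (z - a)
    rw [sub_re, ha, hz, sub_zero] at this
    rw [hz]
    exact this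
  have n2 : ‖1 - z‖ ≤ 2 + |y| := by
    refine (norm_le_abs_re_add_abs_im _).trans ?_
    rw [sub_re, sub_im, hz]
    simp only [one_re, one_im, zero_sub, abs_neg]
    have : |1 - x| ≤ 2 := by
      rw [abs_le]
      constructor <;> linarith
    linarith
  have n3 : ‖1 - a‖ ≤ (1 + 4 * ‖1 - z‖) * ‖z - a‖ := by
    have h1 : ‖1 - a‖ ≤ ‖1 - z‖ + ‖z - a‖ := by
      have := norm_add_le (1 - z) (z - a)
      rwa [sub_add_sub_cancel] at this
    have h2 := norm_nonneg (1 - z)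
    nlinarith
  have n4 : ‖1 - a‖ ^ 2 = 1 + (0 - a.im) ^ 2 := by
    rw [← Complex.normSq_eq_norm_sq, Complex.normSq_apply, sub_re, sub_im, ha]
    simp only [one_re, one_im]
    ring
  have n5 : 0 < ‖1 - a‖ := by
    have : 0 < ‖1 - a‖ ^ 2 := by rw [n4]; positivity
    refine lt_of_le_of_ne (norm_nonneg _) fun h => ?_
    rw [← h] at this
    norm_num at this
  have n6 : 0 < ‖z - a‖ := by linarith
  have hza : z - a ≠ 0 := norm_pos_iff.1 n6
  have h1a : 1 - a ≠ 0 := norm_pos_iff.1 n5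
  have e : (z - a)⁻¹ - (1 - a)⁻¹ = (1 - z) / ((z - a) * (1 - a)) := by
    field_simp
    ring
  rw [e, norm_div, norm_mul, ← n4]
  have hy0 := abs_nonneg y
  have h7 : ‖1 - z‖ * (1 + 4 * ‖1 - z‖) ≤ 40 * (1 + y ^ 2) := by
    have h8 : ‖1 - z‖ * (1 + 4 * ‖1 - z‖) ≤ (2 + |y|) * (1 + 4 * (2 + |y|)) := by
      have := norm_nonneg (1 - z)
      gcongr
    refine h8.trans ?_
    rw [← sq_abs y]
    nlinarith [sq_nonneg (|y| - 1)]
  rw [div_le_iff₀ (by positivity)]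
  have h9 : 1 / ‖1 - a‖ ^ 2 * (‖z - a‖ * ‖1 - a‖) = ‖z - a‖ / ‖1 - a‖ := by
    field_simp
  calc ‖1 - z‖ = ‖1 - z‖ * (‖1 - a‖ / ‖1 - a‖) := by rw [div_self n5.ne', mul_one]
    _ ≤ ‖1 - z‖ * (((1 + 4 * ‖1 - z‖) * ‖z - a‖) / ‖1 - a‖) := by gcongr
    _ = (‖1 - z‖ * (1 + 4 * ‖1 - z‖)) * (‖z - a‖ / ‖1 - a‖) := by ring
    _ ≤ (40 * (1 + y ^ 2)) * (‖z - a‖ / ‖1 - a‖) := by gcongr
    _ = _ := by rw [← h9]; ring

/-- the integral over a line as a sum over the zeros -/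
lemma line_sum (hRH : RiemannHypothesis) {T U : ℝ} (hT : 0 < T) {x : ℝ} (hx1 : x ≤ 1)
    (hx0 : -(1 / 4) ≤ x) (hx : 1 / 4 ≤ |x|) :
    HasSum (fun a : ZZ => (mz a : ℂ) * ∫ y : ℝ, (((⟨x, y⟩ : ℂ) - (a : ℂ))⁻¹ - (1 - (a : ℂ))⁻¹) *
      kk T U ⟨x, y⟩) (∫ y : ℝ, (BB ⟨x, y⟩ - BB 1) * kk T U ⟨x, y⟩) := by
  have : Fact RiemannHypothesis := ⟨hRH⟩
  have hxne : x ≠ 0 := by
    rintro rfl
    norm_num at hx
  have hcont : ∀ a : ZZ, Continuous fun y : ℝ => ((⟨x, y⟩ : ℂ) - (a : ℂ))⁻¹ - (1 - (a : ℂ))⁻¹ :=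
    fun a => (inv_cont (by rw [zre hRH a]; exact hxne)).sub continuous_const
  have hI : ∀ a : ZZ, Integrable (fun y : ℝ => (mz a : ℂ) *
      ((((⟨x, y⟩ : ℂ) - (a : ℂ))⁻¹ - (1 - (a : ℂ))⁻¹) * kk T U ⟨x, y⟩)) := by
    intro a
    apply Integrable.const_mul
    exact kk_int2 hT hx0 hx1 (hcont a) (C := 40 * (1 / (1 + (0 - (a : ℂ).im) ^ 2))) (fun y => by
      refine (term_le hx1 hx0 hx (zre hRH a) y).trans (le_of_eq ?_)
      ring)
  have hnorm : ∀ a : ZZ, ∫ y : ℝ, ‖(mz a : ℂ) *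
      ((((⟨x, y⟩ : ℂ) - (a : ℂ))⁻¹ - (1 - (a : ℂ))⁻¹) * kk T U ⟨x, y⟩)‖ ≤
      (∫ y : ℝ, 40 * MM0 T U * (1 + 4 * T ^ 2) * Real.exp (-(y ^ 2 / (4 * T ^ 2)))) *
        ((mz a : ℝ) * (1 / (1 + (0 - (a : ℂ).im) ^ 2))) := by
    intro a
    rw [← integral_mul_const]
    apply integral_mono (hI a).norm (((gauss4_int hT).const_mul _).mul_const _)
    intro y
    simp only
    rw [norm_mul, norm_mul, Complex.norm_natCast]
    calc (mz a : ℝ) * (‖((⟨x, y⟩ : ℂ) - (a : ℂ))⁻¹ - (1 - (a : ℂ))⁻¹‖ * ‖kk T U ⟨x, y⟩‖)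
        ≤ (mz a : ℝ) * ((40 * (1 + y ^ 2) * (1 / (1 + (0 - (a : ℂ).im) ^ 2))) *
            (MM0 T U * Real.exp (-(y ^ 2 / (2 * T ^ 2))))) := by
          apply mul_le_mul_of_nonneg_left _ (Nat.cast_nonneg _)
          exact mul_le_mul (term_le hx1 hx0 hx (zre hRH a) y) (kk_strip T U x y hx0 hx1)
            (norm_nonneg _) (by positivity)
      _ = 40 * MM0 T U * ((mz a : ℝ) * (1 / (1 + (0 - (a : ℂ).im) ^ 2))) *
            ((1 + y ^ 2) * Real.exp (-(y ^ 2 / (2 * T ^ 2)))) := by ring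
      _ ≤ 40 * MM0 T U * ((mz a : ℝ) * (1 / (1 + (0 - (a : ℂ).im) ^ 2))) *
            ((1 + 4 * T ^ 2) * Real.exp (-(y ^ 2 / (4 * T ^ 2)))) := by
          apply mul_le_mul_of_nonneg_left (poly_gauss hT y)
          have := MM0_nonneg T U
          positivity
      _ = _ := by ring
  have hS := hasSum_integral_of_summable_integral_norm hI
    (Summable.of_nonneg_of_le (fun a => integral_nonneg fun y => norm_nonneg _) hnorm
      ((pos_sum hRH 0).summable.mul_left _))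
  have e1 : ∀ y : ℝ, ∑' a : ZZ, (mz a : ℂ) *
      ((((⟨x, y⟩ : ℂ) - (a : ℂ))⁻¹ - (1 - (a : ℂ))⁻¹) * kk T U ⟨x, y⟩) =
      (BB ⟨x, y⟩ - BB 1) * kk T U ⟨x, y⟩ := by
    intro y
    have h := (pf hRH (z := ⟨x, y⟩) (w := 1) hxne (by norm_num)).mul_right (kk T U ⟨x, y⟩)
    rw [← h.tsum_eq]
    congr 1
    funext a
    rw [one_div, one_div, mul_assoc]
  simp only [e1] at hS
  refine hS.congr_fun fun a => ?_
  rw [integral_const_mul]

/-- the difference of the two lines -/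
lemma B_diff (hRH : RiemannHypothesis) {T U : ℝ} (hT : 0 < T) :
    HasSum (fun a : ZZ => (mz a : ℂ) * (2 * Real.pi * kk T U (a : ℂ)))
      ((∫ y : ℝ, BB ⟨1, y⟩ * kk T U ⟨1, y⟩) -
        ∫ y : ℝ, BB ⟨-(1 / 4), y⟩ * kk T U ⟨-(1 / 4), y⟩) := by
  have h1 := line_sum hRH (U := U) hT (x := 1) le_rfl (by norm_num) (by norm_num)
  have h2 := line_sum hRH (U := U) hT (x := -(1 / 4)) (by norm_num) le_rfl (by
    rw [abs_neg]
    norm_num)
  have h3 := h1.sub h2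
  have hk : ∀ x : ℝ, -(1 / 4) ≤ x → x ≤ 1 → Integrable (fun y : ℝ => kk T U ⟨x, y⟩) := by
    intro x hx hx1
    have := kk_int (U := U) hT hx hx1 (f := fun _ => 1) continuous_const (C := 1) (fun y => by simp)
    simpa using this
  have hB : ∀ x : ℝ, -(1 / 4) ≤ x → x ≤ 1 → x ≠ 0 →
      ∫ y : ℝ, (BB ⟨x, y⟩ - BB 1) * kk T U ⟨x, y⟩ =
        (∫ y : ℝ, BB ⟨x, y⟩ * kk T U ⟨x, y⟩) - BB 1 * ∫ y : ℝ, kk T U ⟨x, y⟩ := by
    intro x hx hx1 hx0
    obtain ⟨C, hC, hb⟩ := Yz_line hRH |x| (abs_pos.2 hx0)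
    have hI : Integrable (fun y : ℝ => BB ⟨x, y⟩ * kk T U ⟨x, y⟩) := by
      apply kk_int2 hT hx hx1 (BB_cont hRH hx0) (C := C * 4)
      intro y
      refine (hb ⟨x, y⟩ le_rfl).trans ?_
      have hxx : |x| ≤ 1 := by
        rw [abs_le]
        constructor <;> linarith
      have h5 := (log_pt x y hxx).trans (log3_le y)
      have h6 : 2 * (1 + |y|) ≤ 4 * (1 + y ^ 2) := by
        rw [← sq_abs y]
        nlinarith [sq_nonneg (|y| - 1), abs_nonneg y]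
      calc C * Real.log (2 + ‖(⟨x, y⟩ : ℂ)‖) ≤ C * (4 * (1 + y ^ 2)) :=
            mul_le_mul_of_nonneg_left (h5.trans h6) hC.le
        _ = _ := by ring
    simp only [sub_mul]
    rw [integral_sub hI ((hk x hx hx1).const_mul _), integral_const_mul]
  rw [hB 1 (by norm_num) le_rfl one_ne_zero, hB (-(1 / 4)) le_rfl (by norm_num) (by norm_num),
    no_pole (a := -(1 / 4)) (b := 1) hT le_rfl (by norm_num) le_rfl] at h3
  have e : (∫ y : ℝ, BB ⟨1, y⟩ * kk T U ⟨1, y⟩) - BB 1 * (∫ y : ℝ, kk T U ⟨-(1 / 4), y⟩) -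
      ((∫ y : ℝ, BB ⟨-(1 / 4), y⟩ * kk T U ⟨-(1 / 4), y⟩) -
        BB 1 * ∫ y : ℝ, kk T U ⟨-(1 / 4), y⟩) =
      (∫ y : ℝ, BB ⟨1, y⟩ * kk T U ⟨1, y⟩) -
        ∫ y : ℝ, BB ⟨-(1 / 4), y⟩ * kk T U ⟨-(1 / 4), y⟩ := by ring
  rw [e] at h3
  refine h3.congr_fun fun a => ?_
  have ha := zre hRH a
  have h5 : ∀ x : ℝ, -(1 / 4) ≤ x → x ≤ 1 → x ≠ 0 →
      ∫ y : ℝ, (((⟨x, y⟩ : ℂ) - (a : ℂ))⁻¹ - (1 - (a : ℂ))⁻¹) * kk T U ⟨x, y⟩ =
        (∫ y : ℝ, ((⟨x, y⟩ : ℂ) - (a : ℂ))⁻¹ * kk T U ⟨x, y⟩) -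
          (1 - (a : ℂ))⁻¹ * ∫ y : ℝ, kk T U ⟨x, y⟩ := by
    intro x hx hx1 hx0
    have hne : x ≠ (a : ℂ).re := by rw [ha]; exact hx0
    simp only [sub_mul]
    rw [integral_sub (kk_int hT hx hx1 (inv_cont hne) (inv_le' hne))
      ((hk x hx hx1).const_mul _), integral_const_mul]
  rw [← mul_sub, h5 1 (by norm_num) le_rfl one_ne_zero,
    h5 (-(1 / 4)) le_rfl (by norm_num) (by norm_num),
    no_pole (a := -(1 / 4)) (b := 1) hT le_rfl (by norm_num) le_rfl]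
  congr 1
  rw [← one_pole (U := U) hT (a := -(1 / 4)) (b := 1) (p := (a : ℂ)) le_rfl le_rfl
    (by rw [ha]; norm_num) (by rw [ha]; norm_num)]
  ring

/-- **the contribution of the zeros** -/
lemma B_part (hRH : RiemannHypothesis) : ∃ C : ℝ, 0 < C ∧ ∀ T U : ℝ, 10 ≤ T → 0 ≤ U →
    ‖∫ y : ℝ, BB ⟨1, y⟩ * kk T U ⟨1, y⟩‖ ≤ C * ((Real.exp (U / 2) + 1) * Real.log T ^ 2) := by
  obtain ⟨C, hC, hz⟩ := zsum hRH
  obtain ⟨C', hC', hb⟩ := Yz_line hRH (1 / 4) (by norm_num)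
  refine ⟨2 * Real.pi * C + 400 * C', by have := Real.pi_pos; positivity, fun T U hT hU => ?_⟩
  have h1 := B_diff hRH (T := T) (U := U) (by linarith)
  have hpi := Real.pi_pos
  have h2 : ‖(∫ y : ℝ, BB ⟨1, y⟩ * kk T U ⟨1, y⟩) -
      ∫ y : ℝ, BB ⟨-(1 / 4), y⟩ * kk T U ⟨-(1 / 4), y⟩‖ ≤
      2 * Real.pi * (Real.exp (U / 2) + 1) * (C * Real.log T ^ 2) := by
    have h3 : ∀ S : Finset ZZ, ‖∑ a ∈ S, (mz a : ℂ) * (2 * Real.pi * kk T U (a : ℂ))‖ ≤
        2 * Real.pi * (Real.exp (U / 2) + 1) * (C * Real.log T ^ 2) := by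
      intro S
      refine (norm_sum_le _ _).trans ?_
      calc ∑ a ∈ S, ‖(mz a : ℂ) * (2 * Real.pi * kk T U (a : ℂ))‖
          ≤ ∑ a ∈ S, 2 * Real.pi * (Real.exp (U / 2) + 1) * ((mz a : ℝ) * wz T a) := by
            refine Finset.sum_le_sum fun a _ => ?_
            rw [norm_mul, norm_mul, norm_mul, Complex.norm_natCast, Complex.norm_ofNat,
              Complex.norm_real, Real.norm_eq_abs, abs_of_pos hpi]
            calc (mz a : ℝ) * (2 * Real.pi * ‖kk T U (a : ℂ)‖)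
                ≤ (mz a : ℝ) * (2 * Real.pi * ((Real.exp (U / 2) + 1) * wz T a)) := by
                  have := kk_zero_le hRH (T := T) (U := U) a
                  gcongr
              _ = _ := by ring
        _ = 2 * Real.pi * (Real.exp (U / 2) + 1) * ∑ a ∈ S, (mz a : ℝ) * wz T a := by
            rw [Finset.mul_sum]
        _ ≤ _ := mul_le_mul_of_nonneg_left (hz T hT S) (by positivity)
    exact le_of_tendsto h1.norm (Eventually.of_forall h3)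
  have h4 := line_le (T := T) (U := U) hT hU (-(1 / 4)) le_rfl (by norm_num)
    (f := fun y => BB ⟨-(1 / 4), y⟩) hC'.le (fun y => by
      refine (hb ⟨-(1 / 4), y⟩ (by
        show 1 / 4 ≤ |-(1 / 4 : ℝ)|
        rw [abs_neg]
        exact le_abs_self _)).trans ?_
      exact mul_le_mul_of_nonneg_left (log_pt _ y (by
        rw [abs_neg, abs_of_pos (by norm_num)]
        norm_num)) hC'.le)
  have h5 : ‖∫ y : ℝ, BB ⟨1, y⟩ * kk T U ⟨1, y⟩‖ ≤
      ‖(∫ y : ℝ, BB ⟨1, y⟩ * kk T U ⟨1, y⟩) -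
        ∫ y : ℝ, BB ⟨-(1 / 4), y⟩ * kk T U ⟨-(1 / 4), y⟩‖ +
      ‖∫ y : ℝ, BB ⟨-(1 / 4), y⟩ * kk T U ⟨-(1 / 4), y⟩‖ := by
    have := norm_add_le ((∫ y : ℝ, BB ⟨1, y⟩ * kk T U ⟨1, y⟩) -
        ∫ y : ℝ, BB ⟨-(1 / 4), y⟩ * kk T U ⟨-(1 / 4), y⟩)
      (∫ y : ℝ, BB ⟨-(1 / 4), y⟩ * kk T U ⟨-(1 / 4), y⟩)
    rwa [sub_add_cancel] at this
  calc _ ≤ 2 * Real.pi * (Real.exp (U / 2) + 1) * (C * Real.log T ^ 2) +
        400 * C' * ((Real.exp (U / 2) + 1) * Real.log T ^ 2) := h5.trans (add_le_add h2 h4)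
    _ = _ := by ring

end Pool.Agent.H862.VK
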